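import Mathlib

/-!
# Local-to-global principle for algebraic independence of products: definitions
-/

set_option autoImplicit false

namespace Pool.Agent.H626R2.Loc

open MvPolynomial

/-! ### Valuation side -/

/-- the values of the nonzero elements `x i` are linearly independent over the integers -/
def IndepVal {E : Type} [Field E] (V : ValuationSubring E) {r : ℕ} (x : Fin r → E) : Prop :=
  (∀ i, x i ≠ 0) ∧ ∀ n : Fin r → ℤ, n ≠ 0 → V.valuation (∏ i, x i ^ n i) ≠ 1

/-- the field of rational functions in `r` variables -/
abbrev Fr (r : ℕ) (F : Type) [Field F] : Type := FractionRing (MvPolynomial (Fin r) F)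

/-- polynomials as rational functions -/
noncomputable def toFr {r : ℕ} {F : Type} [Field F] : MvPolynomial (Fin r) F →+* Fr r F :=
  algebraMap (MvPolynomial (Fin r) F) (Fr r F)

theorem toFr_injective {r : ℕ} {F : Type} [Field F] :
    Function.Injective (toFr : MvPolynomial (Fin r) F →+* Fr r F) :=
  IsFractionRing.injective _ _

/-- the extension of constants `M(t) → k(t)` -/
noncomputable def frMap {r : ℕ} (M k : Type) [Field M] [Field k] [Algebra M k] :
    Fr r M →+* Fr r k :=
  IsFractionRing.lift (A := MvPolynomial (Fin r) M) (K := Fr r M)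
    (g := (toFr (r := r) (F := k)).comp (MvPolynomial.map (algebraMap M k)))
    (toFr_injective.comp (MvPolynomial.map_injective _ (algebraMap M k).injective))

theorem frMap_toFr {r : ℕ} (M k : Type) [Field M] [Field k] [Algebra M k]
    (p : MvPolynomial (Fin r) M) :
    frMap M k (toFr p) = toFr (MvPolynomial.map (algebraMap M k) p) :=
  IsFractionRing.lift_algebraMap _ _

/-- `p` and `p'` are combinations of the same polynomials over `M` (not all zero) with coefficients
which are linearly independent over `M` -/
def Parallel (M : Type) {Λ k : Type} [Field M] [Field Λ] [Field k] [Algebra M Λ] [Algebra M k]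
    {r : ℕ} (p : MvPolynomial (Fin r) Λ) (p' : MvPolynomial (Fin r) k) : Prop :=
  ∃ (s : ℕ) (e : Fin s → Λ) (e' : Fin s → k) (y : Fin s → MvPolynomial (Fin r) M),
    LinearIndependent M e ∧ LinearIndependent M e' ∧ (∃ i, y i ≠ 0) ∧
    p = ∑ i, C (e i) * MvPolynomial.map (algebraMap M Λ) (y i) ∧
    p' = ∑ i, C (e' i) * MvPolynomial.map (algebraMap M k) (y i)

/-- the residue map on a field inside a valuation ring -/
noncomputable def resM {M Ω : Type} [Field M] [Field Ω] [Algebra M Ω] (O : ValuationSubring Ω)
    (hM : ∀ c : M, algebraMap M Ω c ∈ O) : M →+* IsLocalRing.ResidueField O :=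
  (IsLocalRing.residue O).comp ((algebraMap M Ω).codRestrict O.toSubring hM)

/-! ### Polynomial side -/

section poly

variable {K : Type} [Field K] {n : ℕ}

/-- a sum of univariate polynomials plus a polynomial of total degree at most `δ` -/
def SumType (δ : ℕ) (σ : MvPolynomial (Fin n) K) : Prop :=
  ∃ (u : Fin n → Polynomial K) (q : MvPolynomial (Fin n) K), q.totalDegree ≤ δ ∧
    σ = ∑ m, Polynomial.aeval (X m) (u m) + q

/-- a product of univariate polynomials times a polynomial of total degree at most `δ` -/
def ProdType (δ : ℕ) (σ : MvPolynomial (Fin n) K) : Prop :=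
  ∃ (u : Fin n → Polynomial K) (q : MvPolynomial (Fin n) K), q.totalDegree ≤ δ ∧
    σ = (∏ m, Polynomial.aeval (X m) (u m)) * q

/-- the simple polynomials -/
def Simple (δ : ℕ) (σ : MvPolynomial (Fin n) K) : Prop := SumType δ σ ∨ ProdType δ σ

/-- arbitrary polynomials in `ρ` simple polynomials -/
def Cls (ρ δ : ℕ) (g : MvPolynomial (Fin n) K) : Prop :=
  ∃ (σ : Fin ρ → MvPolynomial (Fin n) K) (P : MvPolynomial (Fin ρ) K),
    (∀ i, Simple δ (σ i)) ∧ g = aeval σ P

open Classical in
/-- the variables `x_{s b}` become new variables `t_b`, the others become constants -/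
noncomputable def ren {r : ℕ} (s : Fin r → Fin n) :
    MvPolynomial (Fin n) K →ₐ[K] MvPolynomial (Fin r) (MvPolynomial (Fin n) K) :=
  aeval (fun m => if h : ∃ b, s b = m then X h.choose else C (X m))

/-- the generic point of the Shpilka-Volkovich family with `T` pairs of parameters -/
noncomputable def gen (K : Type) [Field K] (n T : ℕ) (m : Fin n) : MvPolynomial (Fin T ⊕ Fin T) K :=
  ∑ l, X (Sum.inl l) * ∏ j ∈ Finset.univ.erase m, (X (Sum.inr l) - C ((j : ℕ) : K))

/-- substitution of the generic point -/
noncomputable def evT (K : Type) [Field K] (n T : ℕ) :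
    MvPolynomial (Fin n) K →ₐ[K] MvPolynomial (Fin T ⊕ Fin T) K :=
  aeval (gen K n T)

/-- the number of simple polynomials needed for the coefficients of `k + 1` factors -/
def np (k ρ δ : ℕ) : ℕ := (k + 1) * (ρ * (k + δ).choose k)

/-- the number of pairs of parameters -/
def nT (k ρ δ : ℕ) : ℕ := k + (np k ρ δ + (np k ρ δ * δ + 1))

/-- `f` is a polynomial in finitely many products of members of `Cls ρ δ`, no `k + 1` of which are
algebraically independent -/
def BddTr (k ρ δ : ℕ) (f : MvPolynomial (Fin n) K) : Prop :=
  ∃ (N : ℕ) (S : Fin N → Multiset (MvPolynomial (Fin n) K)),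
    (∀ i, ∀ g ∈ S i, Cls ρ δ g) ∧
    (∀ u : Fin (k + 1) → Fin N, ¬ AlgebraicIndependent K (fun a => (S (u a)).prod)) ∧
    f ∈ Algebra.adjoin K (Set.range fun i => (S i).prod)

/-- all coefficients have total degree at most `d` -/
def CD {r : ℕ} (d : ℕ) (G : MvPolynomial (Fin r) (MvPolynomial (Fin n) K)) : Prop :=
  ∀ m, (coeff m G).totalDegree ≤ d

/-- the affine space through a point in the directions `e_{s b}` -/
noncomputable def aff {q : ℕ} (s : Fin q → Fin n) (base : Fin n → K) :
    MvPolynomial (Fin n) K →ₐ[K] MvPolynomial (Fin q) K :=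
  aeval (fun m => C (base m) + ∑ b, if s b = m then X b else 0)

end poly

end Pool.Agent.H626R2.Loc
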