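import Pool.Agent.H177R2.LocC2a

/-! Formalised by helper58. -/

set_option autoImplicit false

namespace Pool.Agent.H626R2.Loc

open MvPolynomial

section poly

variable {K : Type} [Field K] {n : ℕ}

namespace C2c

theorem CD_mono {r d e : ℕ} {G : MvPolynomial (Fin r) (MvPolynomial (Fin n) K)} (hG : CD d G)
    (h : d ≤ e) : CD e G := fun m => (hG m).trans h

theorem CD_one {r : ℕ} : CD 0 (1 : MvPolynomial (Fin r) (MvPolynomial (Fin n) K)) := by
  intro m
  rw [MvPolynomial.coeff_one]
  split <;> simp

theorem CD_zero {r : ℕ} : CD 0 (0 : MvPolynomial (Fin r) (MvPolynomial (Fin n) K)) := by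
  intro m
  simp

theorem totalDegree_pderiv_le (i : Fin n) (f : MvPolynomial (Fin n) K) :
    (pderiv i f).totalDegree ≤ f.totalDegree := by
  classical
  conv_lhs => rw [MvPolynomial.as_sum f, map_sum]
  refine MvPolynomial.totalDegree_finsetSum_le fun m hm => ?_
  rw [pderiv_monomial]
  refine (MvPolynomial.totalDegree_monomial_le _ _).trans ?_
  refine le_trans ?_ (MvPolynomial.le_totalDegree hm)
  rw [Finsupp.sum_of_support_subset _ (s := m.support) ?_ _ (by simp), Finsupp.sum]
  · refine Finset.sum_le_sum fun a _ => ?_
    rw [Finsupp.tsub_apply]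
    exact Nat.sub_le _ _
  · intro a ha
    rw [Finsupp.mem_support_iff, Finsupp.tsub_apply] at ha
    rw [Finsupp.mem_support_iff]
    omega

theorem pderiv_univ (i m : Fin n) (u : Polynomial K) :
    pderiv i (Polynomial.aeval (X m : MvPolynomial (Fin n) K) u) =
      if m = i then Polynomial.aeval (X m : MvPolynomial (Fin n) K) (Polynomial.derivative u)
      else 0 := by
  rw [Derivation.map_aeval, smul_eq_mul, pderiv_X]
  by_cases h : m = i
  · subst h
    simp
  · rw [Pi.single_eq_of_ne (fun h' => h h'), if_neg h, mul_zero]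

end C2c

open C2c in
/-- C2c (uses C2a1, C2a2, C2a4, C2a5). -/
theorem row_decomp {q δ : ℕ} (s : Fin q → Fin n) (hs : Function.Injective s)
    {F : MvPolynomial (Fin n) K} (hF : Simple δ F) (hF0 : F ≠ 0) :
    ∃ (w : Fin n → Polynomial K) (R : Fin q → MvPolynomial (Fin n) K),
      (∀ m, w m ≠ 0) ∧ (∀ b, pderiv (s b) F = (∏ m, Polynomial.aeval (X m) (w m)) * R b) ∧
      ∀ b, CD δ (ren s (R b)) := by
  classical
  rcases hF with ⟨u, p, hp, rfl⟩ | ⟨u, p, hp, rfl⟩
  · refine ⟨fun _ => 1, fun b => pderiv (s b) (∑ m, Polynomial.aeval (X m) (u m) + p),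
      fun _ => one_ne_zero, fun b => by simp, fun b => ?_⟩
    show CD δ (ren s (pderiv (s b) (∑ m, Polynomial.aeval (X m) (u m) + p)))
    rw [map_add, map_sum, Finset.sum_eq_single (s b)]
    · rw [pderiv_univ, if_pos rfl, map_add]
      exact CD.add (CD_mono (CD_ren_univ s b _) (Nat.zero_le _))
        (CD_mono (CD_ren s _) ((totalDegree_pderiv_le _ _).trans hp))
    · intro m _ hm
      rw [pderiv_univ, if_neg hm]
    · intro h
      exact absurd (Finset.mem_univ _) h
  · have hu : ∀ m, u m ≠ 0 := by
      intro m hm
      apply hF0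
      rw [Finset.prod_eq_zero (Finset.mem_univ m) (by rw [hm, map_zero]), zero_mul]
    set U : MvPolynomial (Fin n) K := ∏ b, Polynomial.aeval (X (s b)) (u (s b)) with hU
    set w : Fin n → Polynomial K := fun m => if m ∈ Set.range s then 1 else u m with hw
    have hprod : (∏ m, Polynomial.aeval (X m : MvPolynomial (Fin n) K) (u m)) =
        (∏ m, Polynomial.aeval (X m) (w m)) * U := by
      have h1 : U = ∏ m ∈ Finset.univ.image s, Polynomial.aeval (X m) (u m) := by
        rw [Finset.prod_image (fun a _ b _ h => hs h)]
      have h2 : ∏ m ∈ Finset.univ.image s, Polynomial.aeval (X m : MvPolynomial (Fin n) K) (u m) =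
          ∏ m, if m ∈ Set.range s then Polynomial.aeval (X m) (u m) else 1 := by
        rw [← Finset.prod_filter]
        refine Finset.prod_congr ?_ fun _ _ => rfl
        ext m
        simp
      rw [h1, h2, ← Finset.prod_mul_distrib]
      refine Finset.prod_congr rfl fun m _ => ?_
      by_cases h : m ∈ Set.range s
      · simp only [hw, if_pos h, map_one, one_mul]
      · simp only [hw, if_neg h, mul_one]
    have hd0 : ∀ b, pderiv (s b) (∏ m, Polynomial.aeval (X m : MvPolynomial (Fin n) K) (w m)) = 0 := by
      intro b
      refine Finset.prod_induction _ (fun f => pderiv (s b) f = 0) ?_ ?_ ?_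
      · intro f g hf hg
        rw [Derivation.leibniz, hf, hg, smul_zero, smul_zero, add_zero]
      · exact Derivation.map_one_eq_zero _
      · intro m _
        by_cases h : m ∈ Set.range s
        · simp only [hw, if_pos h, map_one]
          exact Derivation.map_one_eq_zero _
        · rw [pderiv_univ, if_neg]
          intro h'
          exact h ⟨b, h'.symm⟩
    refine ⟨w, fun b => pderiv (s b) (U * p), ?_, ?_, ?_⟩
    · intro m
      by_cases h : m ∈ Set.range s
      · simp only [hw, if_pos h]
        exact one_ne_zero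
      · simp only [hw, if_neg h]
        exact hu m
    · intro b
      rw [hprod, mul_assoc, Derivation.leibniz, hd0, smul_zero, add_zero, smul_eq_mul]
    · intro b
      have hP : CD 0 (ren s U) ∧ CD 0 (ren s (pderiv (s b) U)) := by
        refine Finset.prod_induction _ (fun f => CD 0 (ren s f) ∧ CD 0 (ren s (pderiv (s b) f)))
          ?_ ?_ ?_
        · rintro f g ⟨hf, hf'⟩ ⟨hg, hg'⟩
          refine ⟨?_, ?_⟩
          · rw [map_mul]
            exact CD.mul hf hg
          · rw [Derivation.leibniz, smul_eq_mul, smul_eq_mul, map_add, map_mul, map_mul]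
            exact CD.add (CD.mul hf hg') (CD.mul hg hf')
        · refine ⟨?_, ?_⟩
          · rw [map_one]
            exact CD_one
          · rw [Derivation.map_one_eq_zero, map_zero]
            exact CD_zero
        · intro b' _
          refine ⟨CD_ren_univ s b' _, ?_⟩
          rw [pderiv_univ]
          split
          · exact CD_ren_univ s b' _
          · rw [map_zero]
            exact CD_zero
      show CD δ (ren s (pderiv (s b) (U * p)))
      rw [Derivation.leibniz, smul_eq_mul, smul_eq_mul, map_add, map_mul, map_mul]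
      refine CD.add (CD_mono (CD.mul hP.1 (CD_ren s _)) ?_) (CD_mono (CD.mul (CD_ren s _) hP.2) ?_)
      · rw [zero_add]
        exact (totalDegree_pderiv_le _ _).trans hp
      · rw [add_zero]
        exact hp

end poly

end Pool.Agent.H626R2.Loc
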