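import Pool.Agent.H626R2.Loc.GDefs

/-!
# Polynomials with few coefficients with respect to few variables
-/

set_option autoImplicit false

namespace Pool.Agent.H626R2.Loc

open MvPolynomial

variable {K : Type} [Field K] {n : ℕ}

/-- For every choice of at most `k` variables, `g` is a polynomial in these variables and `C`
members of `T` which do not contain them. -/
def FinCoef (k C : ℕ) (T : Set (MvPolynomial (Fin n) K)) (g : MvPolynomial (Fin n) K) : Prop :=
  ∀ r ≤ k, ∀ s : Fin r → Fin n, Function.Injective s →
    ∃ (F : Fin C → MvPolynomial (Fin n) K) (P : MvPolynomial (Fin r ⊕ Fin C) K),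
      (∀ i, F i ∈ T) ∧ (∀ i b, s b ∉ (F i).vars) ∧
      g = aeval (Sum.elim (fun b => X (s b)) F) P

end Pool.Agent.H626R2.Loc
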