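import Pool.Agent.H626R2.Loc.G2
import Pool.Agent.H415R2.LocG1
import Pool.Agent.H531R2.D4.TI

/-! Formalised by helper615. -/

/-! Formalised by helper615. -/

set_option autoImplicit false

namespace Pool.Agent.H626R2.Loc

open MvPolynomial

section gen

variable {K : Type} [Field K] {n : ℕ} {B₀ : Type} [CommRing B₀] [Algebra K B₀]

/-- G4 (uses G1, G2). -/
theorem evG_inj [CharZero K] [IsDomain B₀] {p T : ℕ} (S : Set (MvPolynomial (Fin n) K))
    (β : Fin n → B₀)
    (hjac : ∀ q ≤ p, ∀ s : Fin q → Fin n, Function.Injective s →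
      ∀ F : Fin q → MvPolynomial (Fin n) K, (∀ a, F a ∈ S) →
      (Matrix.of fun a b => pderiv (s b) (F a)).det ≠ 0 →
      affG K s β (Matrix.of fun a b => pderiv (s b) (F a)).det ≠ 0)
    (F : Fin p → MvPolynomial (Fin n) K) (hF : ∀ i, F i ∈ S) (hT : p ≤ T)
    {x : MvPolynomial (Fin n) K} (hx : x ∈ Algebra.adjoin K (Set.range F))
    (h0 : evG K β T x = 0) : x = 0 := by
  classical
  refine H531R2.D4.faithfulK (k := p) F (evG K β T) ?_ ?_ hx h0
  · intro u hu
    have hinj : Function.Injective u := by
      intro a b hab
      apply hu.injective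
      show F (u a) = F (u b)
      rw [hab]
    have := Fintype.card_le_of_injective u hinj
    simp at this
  · intro r hr u hu
    obtain ⟨s, hs⟩ := H531R2.D4.det_of_algIndK (fun a => F (u a)) hu
    have hsinj : Function.Injective s := by
      intro b b' hbb
      by_contra hne
      apply hs
      refine Matrix.det_zero_of_column_eq hne fun a => ?_
      simp only [Matrix.of_apply, hbb]
    have hdet := hjac r hr s hsinj (fun a => F (u a)) (fun a => hF _) hs
    obtain ⟨φ, hφ⟩ := exists_specG (K := K) (n := n) (q := r) (T := T) (le_trans hr hT) s β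
    refine AlgebraicIndependent.of_comp φ ?_
    have h1 : (φ ∘ fun a => evG K β T (F (u a))) = fun a => affG K s β (F (u a)) := by
      funext a
      exact hφ _
    rw [h1]
    refine H531R2.D4.algInd_of_detK (fun b => (pderiv (R := B₀) b).restrictScalars K) _ ?_
    rw [AlgHom.map_det] at hdet
    have h2 : (Matrix.of fun a b =>
        (pderiv (R := B₀) b).restrictScalars K (affG K s β (F (u a)))) =
        (affG K s β).mapMatrix (Matrix.of fun a b => pderiv (s b) (F (u a))) := by
      ext1 a b
      simp only [Matrix.of_apply, AlgHom.mapMatrix_apply, Matrix.map_apply]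
      exact pderiv_affG s hsinj _ b _
    rw [h2]
    exact hdet

end gen

end Pool.Agent.H626R2.Loc
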