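import Pool.Agent.H626R2.Loc.Spec
import Pool.Agent.H626R2.Loc.G4
import Pool.Agent.H879R2.LocG3
import Pool.Agent.H601R2.LocG5
import Pool.Agent.H227R2.LocC1ab
import Pool.Agent.H992R2.LocC2de
import Pool.Agent.H531R2.D4.TI

set_option autoImplicit false

namespace Pool.Agent.H626R2.Loc

open MvPolynomial

section gfinal

variable {K : Type} [Field K] [CharZero K] {n : ℕ} {B₀ : Type} [CommRing B₀] [Algebra K B₀]

/-- the products indexed by the multisets, written with exponents -/
theorem prod_countG {A : Type} [CommMonoid A] {B : Type} [CommMonoid B] [DecidableEq A]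
    (φ : A →* B) (U : Finset A) (S : Multiset A) (hS : ∀ x ∈ S, x ∈ U) :
    ∏ j : U, φ (j : A) ^ S.count (j : A) = φ S.prod := by
  rw [Finset.prod_coe_sort U (fun x => φ x ^ S.count x), map_multiset_prod φ S,
    Finset.prod_multiset_map_count]
  symm
  refine Finset.prod_subset (fun x hx => hS x (Multiset.mem_toFinset.1 hx)) ?_
  intro x _ hx
  rw [Multiset.mem_toFinset] at hx
  rw [Multiset.count_eq_zero_of_notMem hx, pow_zero]

omit [CharZero K] in
/-- extension of a family of members of `S` by zeros -/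
theorem adjoin_padG {p p' : ℕ} (h : p ≤ p') (S : Set (MvPolynomial (Fin n) K))
    (h0 : (0 : MvPolynomial (Fin n) K) ∈ S) (F : Fin p → MvPolynomial (Fin n) K)
    (hF : ∀ i, F i ∈ S) : ∃ F' : Fin p' → MvPolynomial (Fin n) K, (∀ i, F' i ∈ S) ∧
      Algebra.adjoin K (Set.range F) ≤ Algebra.adjoin K (Set.range F') := by
  refine ⟨fun i => if hi : (i : ℕ) < p then F ⟨i, hi⟩ else 0, ?_, ?_⟩
  · intro i
    dsimp only
    split_ifs with hi
    · exact hF _
    · exact h0
  · refine Algebra.adjoin_mono ?_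
    rintro _ ⟨i, rfl⟩
    refine ⟨⟨i, lt_of_lt_of_le i.2 h⟩, ?_⟩
    dsimp only
    rw [dif_pos i.2]

/-- the key step: independence of products is preserved by the generic point -/
theorem evG_independent [IsDomain B₀] {k ρ c p T r : ℕ} (Sc : Set (MvPolynomial (Fin n) K))
    (h0S : (0 : MvPolynomial (Fin n) K) ∈ Sc) (β : Fin n → B₀)
    (hcoef : ∀ r ≤ k, ∀ s : Fin r → Fin n, Function.Injective s → ∀ σ ∈ Sc,
      ∃ F : Fin c → MvPolynomial (Fin n) K, (∀ i, F i ∈ Sc) ∧
      ∀ m, (ren s σ).coeff m ∈ Algebra.adjoin K (Set.range F))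
    (hjac : ∀ q ≤ p, ∀ s : Fin q → Fin n, Function.Injective s →
      ∀ F : Fin q → MvPolynomial (Fin n) K, (∀ a, F a ∈ Sc) →
      (Matrix.of fun a b => pderiv (s b) (F a)).det ≠ 0 →
      affG K s β (Matrix.of fun a b => pderiv (s b) (F a)).det ≠ 0)
    (hp : (k + 1) * (ρ * c) ≤ p) (hT : k + p ≤ T) (hr : r ≤ k)
    (S : Fin r → Multiset (MvPolynomial (Fin n) K)) (hS : ∀ a, ∀ g ∈ S a, ClsG Sc ρ g)
    (hind : AlgebraicIndependent K (fun a => (S a).prod)) :
    AlgebraicIndependent K (fun a => evG K β T (S a).prod) := by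
  classical
  obtain ⟨s, hdet⟩ := H531R2.D4.det_of_algIndK (fun a => (S a).prod) hind
  have hs : Function.Injective s := by
    intro b b' hbb
    by_contra hne
    apply hdet
    refine Matrix.det_zero_of_column_eq hne ?_
    intro a
    rw [Matrix.of_apply, Matrix.of_apply, hbb]
  have hprod0 : ∀ a, (S a).prod ≠ 0 := fun a => hind.ne_zero a
  have hg0 : ∀ a, ∀ g ∈ S a, g ≠ 0 := by
    intro a g hg h0
    apply hprod0 a
    rw [h0] at hg
    exact Multiset.prod_eq_zero hg
  -- the index set of factors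
  let U : Finset (MvPolynomial (Fin n) K) := Finset.univ.biUnion fun a => (S a).toFinset
  have hU : ∀ a, ∀ g ∈ S a, g ∈ U := fun a g hg =>
    Finset.mem_biUnion.2 ⟨a, Finset.mem_univ _, Multiset.mem_toFinset.2 hg⟩
  have hUmem : ∀ g ∈ U, ∃ a, g ∈ S a := by
    intro g hg
    obtain ⟨a, _, ha⟩ := Finset.mem_biUnion.1 hg
    exact ⟨a, Multiset.mem_toFinset.1 ha⟩
  let g : U → MvPolynomial (Fin r) (MvPolynomial (Fin n) K) := fun j => ren s (j : MvPolynomial _ K)
  let e : Fin r → U → ℕ := fun a j => (S a).count (j : MvPolynomial _ K)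
  have hprod : ∀ a, ∏ j, g j ^ e a j = ren s (S a).prod := fun a =>
    prod_countG (ren s : MvPolynomial (Fin n) K →ₐ[K] _).toRingHom.toMonoidHom U (S a) (hU a)
  have hg : ∀ j, g j ≠ 0 := by
    intro j h0
    obtain ⟨a, ha⟩ := hUmem j j.2
    refine hg0 a _ ha (ren_injective s hs ?_)
    rw [map_zero]
    exact h0
  have hdet2 : (Matrix.of fun a b : Fin r => pderiv b (∏ j, g j ^ e a j)).det ≠ 0 := by
    have h1 : (Matrix.of fun a b : Fin r => pderiv b (∏ j, g j ^ e a j)) =
        (ren s : MvPolynomial (Fin n) K →ₐ[K] _).toRingHom.mapMatrix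
          (Matrix.of fun a b => pderiv (s b) (S a).prod) := by
      ext1 a b
      rw [Matrix.of_apply, RingHom.mapMatrix_apply, Matrix.map_apply, Matrix.of_apply, hprod,
        pderiv_ren s hs]
      rfl
    rw [h1, ← RingHom.map_det]
    intro h0
    apply hdet
    apply ren_injective s hs
    rw [map_zero]
    exact h0
  have hev : ∀ (J : Fin r → U) (j : U), ∀ x ∈ Algebra.adjoin K
      ({c | (∃ l m, c = (g (J l)).coeff m) ∨ ∃ m, c = (g j).coeff m} :
        Set (MvPolynomial (Fin n) K)), evG K β p x = 0 → x = 0 := by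
    intro J j x hx h0
    -- the `r + 1` families of simple polynomials
    let jj : Fin (r + 1) → U := Fin.cons j J
    have hcls : ∀ i, ClsG Sc ρ ((jj i : U) : MvPolynomial (Fin n) K) := by
      intro i
      obtain ⟨a, ha⟩ := hUmem _ (jj i).2
      exact hS a _ ha
    choose F hF hcoefF using fun i => coeff_ren_clsG (r := r) s Sc (hcoef r hr s hs) (hcls i)
    let F1 : Fin ((r + 1) * (ρ * c)) → MvPolynomial (Fin n) K :=
      fun i => F (finProdFinEquiv.symm i).1 (finProdFinEquiv.symm i).2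
    have hle : (r + 1) * (ρ * c) ≤ p :=
      le_trans (Nat.mul_le_mul_right _ (by omega)) hp
    obtain ⟨F2, hF2, hF12⟩ := adjoin_padG hle Sc h0S F1 (fun i => hF _ _)
    refine evG_inj (p := p) (T := p) Sc β hjac F2 hF2 le_rfl ?_ h0
    apply hF12
    have hsub : ∀ i, Algebra.adjoin K (Set.range (F i)) ≤ Algebra.adjoin K (Set.range F1) := by
      intro i
      refine Algebra.adjoin_mono ?_
      rintro _ ⟨l, rfl⟩
      refine ⟨finProdFinEquiv (i, l), ?_⟩
      simp only [F1, Equiv.symm_apply_apply]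
    refine Algebra.adjoin_le ?_ hx
    rintro c (⟨l, m, rfl⟩ | ⟨m, rfl⟩)
    · exact hsub l.succ (hcoefF l.succ m)
    · exact hsub 0 (hcoefF 0 m)
  have hspec := specialize (evG K β p) g hg e hdet2 hev
  obtain ⟨φ, hφ⟩ := exists_specG2 (K := K) (T' := p) (T := T) (r := r) (by omega) s hs β
  refine AlgebraicIndependent.of_comp φ ?_
  have hinj : Function.Injective (aeval (R := MvPolynomial (Fin p ⊕ Fin p) B₀)
      (fun b : Fin r => (C (genG β p (s b)) + X b :
        MvPolynomial (Fin r) (MvPolynomial (Fin p ⊕ Fin p) B₀)))) := shift_injective _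
  have h3 := hspec.map' (f := (aeval (R := MvPolynomial (Fin p ⊕ Fin p) B₀)
      (fun b : Fin r => (C (genG β p (s b)) + X b :
        MvPolynomial (Fin r) (MvPolynomial (Fin p ⊕ Fin p) B₀)))).restrictScalars K) hinj
  convert h3 using 1
  funext a
  rw [Function.comp_apply, Function.comp_apply, hφ, hprod]
  rfl

/-- G6. -/
theorem evG_ne_zero [IsDomain B₀] {k ρ c p T : ℕ} (S : Set (MvPolynomial (Fin n) K))
    (h0S : (0 : MvPolynomial (Fin n) K) ∈ S) (β : Fin n → B₀)
    (hcoef : ∀ r ≤ k, ∀ s : Fin r → Fin n, Function.Injective s → ∀ σ ∈ S,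
      ∃ F : Fin c → MvPolynomial (Fin n) K, (∀ i, F i ∈ S) ∧
      ∀ m, (ren s σ).coeff m ∈ Algebra.adjoin K (Set.range F))
    (hjac : ∀ q ≤ p, ∀ s : Fin q → Fin n, Function.Injective s →
      ∀ F : Fin q → MvPolynomial (Fin n) K, (∀ a, F a ∈ S) →
      (Matrix.of fun a b => pderiv (s b) (F a)).det ≠ 0 →
      affG K s β (Matrix.of fun a b => pderiv (s b) (F a)).det ≠ 0)
    (hp : (k + 1) * (ρ * c) ≤ p) (hT : k + p ≤ T) {f : MvPolynomial (Fin n) K}
    (hf : BddTrG (ClsG S ρ) k f) (h0 : f ≠ 0) : evG K β T f ≠ 0 := by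
  obtain ⟨N, Sm, hS, hk, hmem⟩ := hf
  intro hz
  apply h0
  refine H531R2.D4.faithfulK (k := k) (fun i => (Sm i).prod) (evG K β T) hk ?_ hmem hz
  intro r hr u hu
  exact evG_independent S h0S β hcoef hjac hp hT hr (fun a => Sm (u a)) (fun a => hS (u a)) hu

end gfinal

end Pool.Agent.H626R2.Loc
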