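import Pool.Agent.H626R2.Loc.GDefs

set_option autoImplicit false

namespace Pool.Agent.H626R2.Loc

open MvPolynomial

namespace S6

theorem nth_prime (m : ℕ) : (Nat.nth Nat.Prime m).Prime := Nat.prime_nth_prime m

theorem nth_inj : Function.Injective (Nat.nth Nat.Prime) :=
  Nat.nth_injective Nat.infinite_setOf_prime

theorem prod_injective {n : ℕ} (e e' : Fin n →₀ ℕ)
    (h : ∏ m : Fin n, Nat.nth Nat.Prime m ^ e m = ∏ m : Fin n, Nat.nth Nat.Prime m ^ e' m) :
    e = e' := by
  have key : ∀ (e : Fin n →₀ ℕ) (m : Fin n),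
      (∏ i : Fin n, Nat.nth Nat.Prime i ^ e i).factorization (Nat.nth Nat.Prime m) = e m := by
    intro e m
    rw [Nat.factorization_prod (S := Finset.univ) (g := fun i : Fin n =>
        Nat.nth Nat.Prime i ^ e i) (fun i _ => pow_ne_zero _ (nth_prime i).ne_zero),
      Finsupp.finsetSum_apply, Finset.sum_eq_single m]
    · rw [(nth_prime m).factorization_pow, Finsupp.single_eq_same]
    · intro i _ him
      rw [(nth_prime i).factorization_pow, Finsupp.single_eq_of_ne]
      intro h
      exact him (Fin.ext (nth_inj h)).symm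
    · intro h
      exact absurd (Finset.mem_univ _) h
  ext m
  rw [← key e m, ← key e' m, h]

end S6

variable {K : Type} [Field K] {n : ℕ}

/-- S6. -/
theorem prime_hit [CharZero K] {N : ℕ} (f : MvPolynomial (Fin n) K) (hf : f ≠ 0)
    (hN : f.support.card ≤ N + 1) :
    ∃ j ≤ N, eval (fun m : Fin n => ((Nat.nth Nat.Prime m : ℕ) : K) ^ j) f ≠ 0 := by
  classical
  by_contra hcon
  push Not at hcon
  apply hf
  let v : (Fin n →₀ ℕ) → ℕ := fun e => ∏ m : Fin n, Nat.nth Nat.Prime m ^ e m
  have hv : Function.Injective v := fun e e' h => S6.prod_injective e e' h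
  have heval : ∀ j : ℕ, eval (fun m : Fin n => ((Nat.nth Nat.Prime m : ℕ) : K) ^ j) f =
      ∑ e ∈ f.support, coeff e f * ((v e : ℕ) : K) ^ j := by
    intro j
    rw [eval_eq]
    refine Finset.sum_congr rfl fun e _ => ?_
    congr 1
    simp only [v]
    rw [Nat.cast_prod, ← Finset.prod_pow]
    have h1 : ∏ i ∈ e.support, (((Nat.nth Nat.Prime i : ℕ) : K) ^ j) ^ e i =
        ∏ i : Fin n, (((Nat.nth Nat.Prime i : ℕ) : K) ^ j) ^ e i := by
      refine Finset.prod_subset (Finset.subset_univ _) ?_
      intro i _ hi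
      rw [Finsupp.notMem_support_iff] at hi
      rw [hi, pow_zero]
    rw [h1]
    refine Finset.prod_congr rfl fun i _ => ?_
    push_cast
    rw [← pow_mul, ← pow_mul, mul_comm]
  let E := f.support.equivFin
  have h0 : (fun i : Fin f.support.card => coeff ((E.symm i : f.support) : Fin n →₀ ℕ) f) = 0 := by
    apply Matrix.eq_zero_of_forall_pow_sum_mul_pow_eq_zero
      (f := fun i : Fin f.support.card => ((v ((E.symm i : f.support) : Fin n →₀ ℕ) : ℕ) : K))
    · intro i i' h
      have h1 := hv (Nat.cast_injective h)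
      exact E.symm.injective (Subtype.ext h1)
    · intro j
      have h1 := hcon j (by omega)
      rw [heval, ← Finset.sum_coe_sort] at h1
      rw [← h1]
      exact E.symm.sum_comp (fun e : f.support =>
        coeff (e : Fin n →₀ ℕ) f * ((v (e : Fin n →₀ ℕ) : ℕ) : K) ^ (j : ℕ))
  rw [← support_eq_empty, Finset.eq_empty_iff_forall_notMem]
  intro e he
  have h1 := congrFun h0 (E ⟨e, he⟩)
  simp only [Equiv.symm_apply_apply, Pi.zero_apply] at h1
  exact (mem_support_iff.1 he) h1

end Pool.Agent.H626R2.Loc
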