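import Pool.Agent.H509R2.LocS3
import Pool.Agent.H662R2.LocS4
import Pool.Agent.H881R2.LocS5
import Pool.Agent.H626R2.Loc.S6

/-! Formalised by helper415. -/

set_option autoImplicit false

namespace Pool.Agent.H626R2.Loc

open MvPolynomial

section gen

variable {K : Type} [Field K] {n : ℕ}

theorem S7.eval_affG {B₀ : Type} [CommRing B₀] [Algebra K B₀] {q : ℕ} (s : Fin q → Fin n)
    (β : Fin n → B₀) (f : MvPolynomial (Fin n) K) :
    eval (fun _ => (0 : B₀)) (affG K s β f) = aeval β f := by
  induction f using MvPolynomial.induction_on with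
  | C c =>
    rw [← MvPolynomial.algebraMap_eq, AlgHom.commutes, AlgHom.commutes,
      MvPolynomial.algebraMap_apply, eval_C]
  | add p r hp hr => rw [map_add, map_add, map_add, hp, hr]
  | mul_X p m hp =>
    have h1 : affG K s β (X m) = C (β m) + ∑ b, if s b = m then X b else 0 :=
      MvPolynomial.aeval_X _ m
    rw [map_mul, map_mul, map_mul, hp, h1, aeval_X, map_add, eval_C, map_sum]
    congr 1
    rw [Finset.sum_eq_zero, add_zero]
    intro b _
    split_ifs
    · rw [eval_X]
    · rw [map_zero]

theorem S7.eval_aeval (β : Fin n → Polynomial K) (x : K) (f : MvPolynomial (Fin n) K) :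
    Polynomial.eval x (aeval β f) = eval (fun m => (β m).eval x) f := by
  induction f using MvPolynomial.induction_on with
  | C c =>
    rw [← MvPolynomial.algebraMap_eq, AlgHom.commutes, MvPolynomial.algebraMap_eq, eval_C,
      Polynomial.algebraMap_eq, Polynomial.eval_C]
  | add p r hp hr => rw [map_add, Polynomial.eval_add, map_add, hp, hr]
  | mul_X p m hp => rw [map_mul, Polynomial.eval_mul, map_mul, hp, aeval_X, eval_X]

/-- S7 (uses S3-S6). -/
theorem jac_hit [CharZero K] {L sp d p N q : ℕ} (hL : 1 ≤ L)
    (hN : p.factorial * rowS p L sp ^ p ≤ N) (hq : q ≤ p) (s : Fin q → Fin n)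
    (hs : Function.Injective s) (F : Fin q → MvPolynomial (Fin n) K)
    (hF : ∀ a, F a ∈ SimpleS n K L sp d)
    (hdet : (Matrix.of fun a b => pderiv (s b) (F a)).det ≠ 0) :
    affG K s (base K n N) (Matrix.of fun a b => pderiv (s b) (F a)).det ≠ 0 := by
  classical
  have hrow : 1 ≤ rowS p L sp := by unfold rowS; omega
  have hN1 : 1 ≤ N := by
    refine le_trans ?_ hN
    exact Nat.mul_pos (Nat.factorial_pos p) (pow_pos hrow p)
  have hF0 : ∀ a, F a ≠ 0 := by
    intro a h0
    apply hdet
    refine Matrix.det_eq_zero_of_row_eq_zero a fun b => ?_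
    rw [Matrix.of_apply, h0, map_zero]
  choose w R hw hR hcard using fun a => row_decompS hq hL s hs (hF a) (hF0 a)
  have hfac : (Matrix.of fun a b => pderiv (s b) (F a)).det =
      (∏ a, ∏ m, Polynomial.aeval (X m : MvPolynomial (Fin n) K) (w a m)) *
        (Matrix.of fun a b => R a b).det := by
    rw [← Matrix.det_mul_column]
    congr 1
    ext1 a b
    rw [Matrix.of_apply, Matrix.of_apply, Matrix.of_apply, hR]
  have hRdet : (Matrix.of fun a b => R a b).det ≠ 0 := by
    intro h0
    apply hdet
    rw [hfac, h0, mul_zero]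
  rw [hfac, map_mul, map_prod]
  refine mul_ne_zero (Finset.prod_ne_zero_iff.mpr fun a _ => ?_) ?_
  · rw [map_prod]
    refine Finset.prod_ne_zero_iff.mpr fun m _ h0 => ?_
    have h1 := congrArg (eval (fun _ => (0 : Polynomial K))) h0
    rw [S7.eval_affG, map_zero] at h1
    have h2 : aeval (base K n N) (Polynomial.aeval (X m : MvPolynomial (Fin n) K) (w a m)) =
        Polynomial.aeval (psi K N (Nat.nth Nat.Prime m)) (w a m) := by
      rw [← Polynomial.aeval_algHom_apply, aeval_X]
      rfl
    rw [h2] at h1
    exact psi_comp_ne_zero hN1 (Nat.prime_nth_prime m).two_le (w a m) (hw a m) h1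
  · intro h0
    have h1 := congrArg (eval (fun _ => (0 : Polynomial K))) h0
    rw [S7.eval_affG, map_zero] at h1
    have hsupp : (Matrix.of fun a b => R a b).det.support.card ≤ N + 1 := by
      have h2 := card_support_det (K := K) (Matrix.of fun a b => R a b) (W := rowS p L sp)
        (fun a b => hcard a b)
      refine h2.trans (le_trans ?_ (hN.trans (Nat.le_succ N)))
      exact Nat.mul_le_mul (Nat.factorial_le hq) (Nat.pow_le_pow_right hrow hq)
    obtain ⟨j, hj, hne⟩ := prime_hit _ hRdet hsupp
    apply hne
    have h3 := congrArg (Polynomial.eval (j : K)) h1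
    rw [S7.eval_aeval, Polynomial.eval_zero] at h3
    rw [← h3]
    congr 2
    funext m
    show _ = (psi K N (Nat.nth Nat.Prime m)).eval (j : K)
    rw [psi_eval, psiN_eq (Nat.prime_nth_prime m).one_lt.le hj]
    push_cast
    rfl

end gen

end Pool.Agent.H626R2.Loc
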