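import Pool.Agent.H626R2.Loc.EDefs
import Pool.Agent.H626R2.Loc.GFinal
import Pool.Agent.H626R2.Loc.S7
import Pool.Agent.H392R2.LocO1
import Pool.Agent.H130R2.LocO3
import Pool.Agent.H233R2.LocO4
import Pool.Agent.H16R4.LocO5
import Pool.Agent.H130R2.LocO6
import Pool.Agent.H415R2.LocO7

set_option autoImplicit false

namespace Pool.Agent.H626R2.Loc

open MvPolynomial

section e

variable {K : Type} [Field K] {n : ℕ}

theorem subset_levG {S₀ : Set (MvPolynomial (Fin n) K)} {c : ℕ} (hc : 1 ≤ c) (j : ℕ) :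
    LevG S₀ c j ⊆ LevG S₀ c (j + 1) := by
  show _ ⊆ Occ c _
  exact subset_occ hc

theorem zero_mem_levG {S₀ : Set (MvPolynomial (Fin n) K)} (h0 : (0 : MvPolynomial (Fin n) K) ∈ S₀)
    {c : ℕ} (hc : 1 ≤ c) (j : ℕ) : (0 : MvPolynomial (Fin n) K) ∈ LevG S₀ c j := by
  induction j with
  | zero => exact h0
  | succ j ih => exact subset_levG hc j ih

theorem coefFin_levG {S₀ : Set (MvPolynomial (Fin n) K)} {f : ℕ → ℕ} {c k : ℕ} (hc : 1 ≤ c)
    (hS : CoefFin S₀ k (f k)) (j : ℕ) : CoefFin (LevG S₀ c j) k (cfG f c k j) := by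
  induction j with
  | zero => exact hS
  | succ j ih => exact coefFin_occ hc ih

theorem pderiv_levG {S₀ : Set (MvPolynomial (Fin n) K)} {a c : ℕ} (hc : 1 ≤ c)
    (hS : ∀ σ ∈ S₀, ∀ m, SumProd a S₀ (pderiv m σ)) (j : ℕ) :
    ∀ σ ∈ LevG S₀ c j, ∀ m, SumProd (cdG a c j) (LevG S₀ c j) (pderiv m σ) := by
  induction j with
  | zero => exact hS
  | succ j ih =>
    intro σ hσ m
    exact (pderiv_occ ih hσ m).mono le_rfl (subset_levG hc j)

theorem cdG_pos {a c : ℕ} (ha : 1 ≤ a) (hc : 1 ≤ c) (j : ℕ) : 1 ≤ cdG a c j := by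
  induction j with
  | zero => exact ha
  | succ j ih => exact Nat.mul_pos hc ih

variable [CharZero K]

/-- The generator hits all levels over a base class for which it hits the Jacobian determinants. -/
theorem levG_hit {B₀ : Type} [CommRing B₀] [IsDomain B₀] [Algebra K B₀]
    {S₀ : Set (MvPolynomial (Fin n) K)} {f : ℕ → ℕ} {a c : ℕ} (ha : 1 ≤ a) (hc : 1 ≤ c)
    (h0S : (0 : MvPolynomial (Fin n) K) ∈ S₀) (hfin : ∀ k, CoefFin S₀ k (f k))
    (hder : ∀ σ ∈ S₀, ∀ m, SumProd a S₀ (pderiv m σ)) (β : Fin n → B₀) (j : ℕ) :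
    ∀ k ρ T : ℕ, TtG f a c j k ρ ≤ T →
    (∀ q ≤ PtG f a c j k ρ, ∀ s : Fin q → Fin n, Function.Injective s →
      ∀ F : Fin q → MvPolynomial (Fin n) K, (∀ b, F b ∈ S₀) →
      (Matrix.of fun a b => pderiv (s b) (F a)).det ≠ 0 →
      affG K s β (Matrix.of fun a b => pderiv (s b) (F a)).det ≠ 0) →
    ∀ φ : MvPolynomial (Fin n) K,
    BddTrG (ClsG (LevG S₀ c j) ρ) k φ → φ ≠ 0 → evG K β T φ ≠ 0 := by
  induction j with
  | zero =>
    intro k ρ T hT hjac φ hφ h0
    exact evG_ne_zero (c := cfG f c k 0) (p := ptG f c 0 k ρ) (LevG S₀ c 0)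
      h0S β ((coefFin_levG hc (hfin k) 0).fin h0S) hjac le_rfl hT hφ h0
  | succ j ih =>
    intro k ρ T hT hjac φ hφ h0
    set p := ptG f c (j + 1) k ρ with hp
    set k' := p.factorial * cdG a c (j + 1) ^ p with hk'
    have hT' : (k + p) + TtG f a c j k' 1 ≤ T := hT
    have key : evG K (genG β (TtG f a c j k' 1)) (k + p) φ ≠ 0 := by
      refine evG_ne_zero (c := cfG f c k (j + 1)) (p := p) (LevG S₀ c (j + 1))
        (zero_mem_levG h0S hc (j + 1)) (genG β (TtG f a c j k' 1)) ?_ ?_ le_rfl le_rfl hφ h0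
      · exact (coefFin_levG hc (hfin k) (j + 1)).fin (zero_mem_levG h0S hc (j + 1))
      · intro q hq sb hsb F hF hdet
        apply affG_ne_zero
        have h1 : SumProd (q.factorial * cdG a c (j + 1) ^ q) (LevG S₀ c j)
            (Matrix.of fun a b => pderiv (sb b) (F a)).det :=
          SumProd.det _ (fun a b => pderiv_occ (pderiv_levG hc hder j) (hF a) (sb b))
        have h2 : q.factorial * cdG a c (j + 1) ^ q ≤ k' :=
          Nat.mul_le_mul (Nat.factorial_le hq) (Nat.pow_le_pow_right (cdG_pos ha hc _) hq)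
        exact ih k' 1 (TtG f a c j k' 1) le_rfl hjac _ (h1.mono h2 subset_rfl).bddTrG hdet
    obtain ⟨φ', hφ'⟩ := exists_flat (K := K) (n := n) (T₁ := TtG f a c j k' 1) (T₂ := k + p)
      (T := T) (by omega) β
    intro hz
    apply key
    rw [← hφ', hz, map_zero]

/-- the Jacobian determinants of simple polynomials are hit by the interpolated prime powers -/
theorem jac_hitE {L sp d p N q : ℕ} (hL : 1 ≤ L)
    (hN : p.factorial * rowS p L sp ^ p ≤ N) (hq : q ≤ p) (s : Fin q → Fin n)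
    (hs : Function.Injective s) (F : Fin q → MvPolynomial (Fin n) K)
    (hF : ∀ a, F a ∈ SimpleE n K L sp d)
    (hdet : (Matrix.of fun a b => pderiv (s b) (F a)).det ≠ 0) :
    affG K s (base K n N) (Matrix.of fun a b => pderiv (s b) (F a)).det ≠ 0 := by
  classical
  have h1 : ∀ a, ∃ d', F a ∈ SimpleS n K L sp d' := by
    intro a
    rcases hF a with ⟨u, q, hu, hq, _, hq'⟩ | ⟨u, q, hu, hq, _, hq'⟩
    · exact ⟨Finset.univ.sup fun m => q.degreeOf m, Or.inl ⟨u, q, hu, hq,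
        fun m => Finset.le_sup (f := fun m => q.degreeOf m) (Finset.mem_univ m), hq'⟩⟩
    · exact ⟨Finset.univ.sup fun m => q.degreeOf m, Or.inr ⟨u, q, hu, hq,
        fun m => Finset.le_sup (f := fun m => q.degreeOf m) (Finset.mem_univ m), hq'⟩⟩
  choose d' hd' using h1
  refine jac_hit (d := Finset.univ.sup d') hL hN hq s hs F (fun a => ?_) hdet
  have hle : d' a ≤ Finset.univ.sup d' := Finset.le_sup (Finset.mem_univ a)
  rcases hd' a with ⟨u, q, hu, hq, hdeg, hF'⟩ | ⟨u, q, hu, hq, hdeg, hF'⟩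
  · exact Or.inl ⟨u, q, hu, hq, fun m => (hdeg m).trans hle, hF'⟩
  · exact Or.inr ⟨u, q, hu, hq, fun m => (hdeg m).trans hle, hF'⟩

end e

end Pool.Agent.H626R2.Loc
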