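import Pool.Agent.H584R2.LocC1c
import Pool.Agent.H601R2.LocG5

set_option autoImplicit false

namespace Pool.Agent.H626R2.Loc

open MvPolynomial

variable {K : Type} [Field K] {n : ℕ}

/-- C1e. -/
theorem coeff_ren_cls {r : ℕ} (s : Fin r → Fin n) (hs : Function.Injective s) {ρ δ : ℕ}
    {g : MvPolynomial (Fin n) K} (hg : Cls ρ δ g) :
    ∃ F : Fin (ρ * (r + δ).choose r) → MvPolynomial (Fin n) K, (∀ i, Simple δ (F i)) ∧
      ∀ m, (ren s g).coeff m ∈ Algebra.adjoin K (Set.range F) := by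
  refine coeff_ren_clsG (S := {σ | Simple δ σ}) s ?_ (ρ := ρ) hg
  rintro σ (hσ | hσ)
  · obtain ⟨F, hF, h⟩ := coeff_ren_sum s hs hσ
    exact ⟨F, fun i => Or.inl (hF i), h⟩
  · obtain ⟨F, hF, h⟩ := coeff_ren_prod s hs hσ
    exact ⟨F, fun i => Or.inr (hF i), h⟩

end Pool.Agent.H626R2.Loc
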