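import Pool.Agent.H626R2.Loc.C2b
import Pool.Agent.H745R2.LocC3b
import Pool.Agent.H531R2.D4.TI

/-! Formalised by helper910. -/

set_option autoImplicit false

namespace Pool.Agent.H626R2.Loc

open MvPolynomial

section poly

variable {K : Type} [Field K] {n : ℕ} [CharZero K]

/-- C4 (uses C2b, C3, C3b). -/
theorem evT_inj_simple {p δ T : ℕ} (F : Fin p → MvPolynomial (Fin n) K)
    (hF : ∀ i, Simple δ (F i)) (hT : p + (p * δ + 1) ≤ T) {x : MvPolynomial (Fin n) K}
    (hx : x ∈ Algebra.adjoin K (Set.range F)) (h0 : evT K n T x = 0) : x = 0 := by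
  classical
  refine H531R2.D4.faithfulK (k := p) F (evT K n T) ?_ ?_ hx h0
  · intro u hu
    have hinj : Function.Injective u := by
      intro a b hab
      apply hu.injective
      show F (u a) = F (u b)
      rw [hab]
    have := Fintype.card_le_of_injective u hinj
    simp at this
  · intro r hr u hu
    obtain ⟨s, hs⟩ := H531R2.D4.det_of_algIndK (fun a => F (u a)) hu
    have hsinj : Function.Injective s := by
      intro b b' hbb
      by_contra hne
      apply hs
      refine Matrix.det_zero_of_column_eq hne fun a => ?_
      simp only [Matrix.of_apply, hbb]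
    obtain ⟨u', w', hdet⟩ := exists_base (q := r) (δ := δ) (D' := p * δ + 1) (by omega)
      (by
        have : r * δ ≤ p * δ := Nat.mul_le_mul_right _ hr
        omega) s hsinj (fun a => F (u a)) (fun a => hF _) hs
    obtain ⟨φ, hφ⟩ := exists_spec (K := K) (n := n) (q := r) (D' := p * δ + 1) (T := T) (by omega)
      s u' w'
    refine AlgebraicIndependent.of_comp φ ?_
    have h1 : (φ ∘ fun a => evT K n T (F (u a))) =
        fun a => aff s (H531R2.D4.sv u' w') (F (u a)) := by
      funext a
      exact hφ _
    rw [h1]
    refine H531R2.D4.algInd_of_detK (fun b => pderiv b) _ ?_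
    rw [AlgHom.map_det] at hdet
    have h2 : (Matrix.of fun a b => pderiv b (aff s (H531R2.D4.sv u' w') (F (u a)))) =
        (aff s (H531R2.D4.sv u' w')).mapMatrix (Matrix.of fun a b => pderiv (s b) (F (u a))) := by
      ext1 a b
      simp only [Matrix.of_apply, AlgHom.mapMatrix_apply, Matrix.map_apply]
      exact pderiv_aff s hsinj _ b _
    rw [h2]
    exact hdet

end poly

end Pool.Agent.H626R2.Loc
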