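import Pool.Agent.H626R2.Loc.FDefs
import Pool.Agent.H626R2.Loc.EMain
import Pool.Agent.H626R2.Loc.Final

/-!
# Two classes: factors and their coefficients
-/

set_option autoImplicit false

namespace Pool.Agent.H626R2.Loc

open MvPolynomial

section fin

variable {K : Type} [Field K] {n : ℕ}

theorem FinCoef.ren {k C r : ℕ} {T : Set (MvPolynomial (Fin n) K)} {g : MvPolynomial (Fin n) K}
    (hg : FinCoef k C T g) (hr : r ≤ k) (s : Fin r → Fin n) (hs : Function.Injective s) :
    ∃ F : Fin C → MvPolynomial (Fin n) K, (∀ i, F i ∈ T) ∧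
      ∀ m, (ren s g).coeff m ∈ Algebra.adjoin K (Set.range F) := by
  classical
  obtain ⟨F, P, hF, hv, rfl⟩ := hg r hr s hs
  refine ⟨F, hF, ?_⟩
  have hX : ∀ b, Loc.ren (K := K) s (X (s b)) = X b := by
    intro b
    unfold Loc.ren
    rw [aeval_X, dif_pos ⟨b, rfl⟩]
    congr 1
    exact hs (Exists.choose_spec (⟨b, rfl⟩ : ∃ b', s b' = s b))
  have key : Loc.ren s (aeval (Sum.elim (fun b => X (s b)) F) P) ∈
      G5.coeffAlg (r := r) (Algebra.adjoin K (Set.range F)) := by
    have h1 : Loc.ren s (aeval (Sum.elim (fun b => X (s b)) F) P) =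
        aeval (fun i => Loc.ren s (Sum.elim (fun b => X (s b)) F i)) P := by
      rw [← AlgHom.comp_apply, comp_aeval]
    rw [h1]
    clear h1 hg
    induction P using MvPolynomial.induction_on with
    | C a =>
      rw [algHom_C]
      exact Subalgebra.algebraMap_mem _ a
    | add p q hp hq =>
      rw [map_add]
      exact Subalgebra.add_mem _ hp hq
    | mul_X p i hp =>
      rw [map_mul, aeval_X]
      refine Subalgebra.mul_mem _ hp ?_
      rcases i with b | i
      · rw [Sum.elim_inl, hX]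
        intro m
        rw [coeff_X]
        split_ifs
        · exact Subalgebra.one_mem _
        · exact Subalgebra.zero_mem _
      · rw [Sum.elim_inr, ren_dead s (F i) (hv i)]
        intro m
        rw [coeff_C]
        split_ifs
        · exact Algebra.subset_adjoin ⟨i, rfl⟩
        · exact Subalgebra.zero_mem _
  exact key

/-- polynomials in `ρ` members of the class -/
theorem FinCoef.comp {k C ρ : ℕ} {T : Set (MvPolynomial (Fin n) K)}
    (σ : Fin ρ → MvPolynomial (Fin n) K) (hσ : ∀ i, FinCoef k C T (σ i))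
    (Q : MvPolynomial (Fin ρ) K) : FinCoef k (ρ * C) T (aeval σ Q) := by
  classical
  intro r hr s hs
  choose F P hF hv hP using fun i => hσ i r hr s hs
  refine ⟨fun j => F (finProdFinEquiv.symm j).1 (finProdFinEquiv.symm j).2,
    aeval (fun i => rename (Sum.map id fun l => finProdFinEquiv (i, l)) (P i)) Q,
    fun j => hF _ _, fun j b => hv _ _ b, ?_⟩
  rw [← AlgHom.comp_apply, comp_aeval]
  congr 2
  funext i
  rw [hP i, aeval_rename]
  congr 2
  funext x
  rcases x with b | l
  · rfl
  · show F i l = F (finProdFinEquiv.symm (finProdFinEquiv (i, l))).1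
      (finProdFinEquiv.symm (finProdFinEquiv (i, l))).2
    rw [Equiv.symm_apply_apply]

end fin

section gfinal2

variable {K : Type} [Field K] [CharZero K] {n : ℕ} {B₀ : Type} [CommRing B₀] [Algebra K B₀]

/-- the key step: independence of products is preserved by the generic point -/
theorem evG_independent2 [IsDomain B₀] {k c p T r : ℕ}
    (S₁ Sc : Set (MvPolynomial (Fin n) K))
    (h0S : (0 : MvPolynomial (Fin n) K) ∈ Sc) (β : Fin n → B₀)
    (hcoef : ∀ r ≤ k, ∀ s : Fin r → Fin n, Function.Injective s → ∀ σ ∈ S₁,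
      ∃ F : Fin c → MvPolynomial (Fin n) K, (∀ i, F i ∈ Sc) ∧
      ∀ m, (ren s σ).coeff m ∈ Algebra.adjoin K (Set.range F))
    (hjac : ∀ q ≤ p, ∀ s : Fin q → Fin n, Function.Injective s →
      ∀ F : Fin q → MvPolynomial (Fin n) K, (∀ a, F a ∈ Sc) →
      (Matrix.of fun a b => pderiv (s b) (F a)).det ≠ 0 →
      affG K s β (Matrix.of fun a b => pderiv (s b) (F a)).det ≠ 0)
    (hp : (k + 1) * c ≤ p) (hT : k + p ≤ T) (hr : r ≤ k)
    (S : Fin r → Multiset (MvPolynomial (Fin n) K)) (hS : ∀ a, ∀ g ∈ S a, g ∈ S₁)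
    (hind : AlgebraicIndependent K (fun a => (S a).prod)) :
    AlgebraicIndependent K (fun a => evG K β T (S a).prod) := by
  classical
  obtain ⟨s, hdet⟩ := H531R2.D4.det_of_algIndK (fun a => (S a).prod) hind
  have hs : Function.Injective s := by
    intro b b' hbb
    by_contra hne
    apply hdet
    refine Matrix.det_zero_of_column_eq hne ?_
    intro a
    rw [Matrix.of_apply, Matrix.of_apply, hbb]
  have hprod0 : ∀ a, (S a).prod ≠ 0 := fun a => hind.ne_zero a
  have hg0 : ∀ a, ∀ g ∈ S a, g ≠ 0 := by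
    intro a g hg h0
    apply hprod0 a
    rw [h0] at hg
    exact Multiset.prod_eq_zero hg
  -- the index set of factors
  let U : Finset (MvPolynomial (Fin n) K) := Finset.univ.biUnion fun a => (S a).toFinset
  have hU : ∀ a, ∀ g ∈ S a, g ∈ U := fun a g hg =>
    Finset.mem_biUnion.2 ⟨a, Finset.mem_univ _, Multiset.mem_toFinset.2 hg⟩
  have hUmem : ∀ g ∈ U, ∃ a, g ∈ S a := by
    intro g hg
    obtain ⟨a, _, ha⟩ := Finset.mem_biUnion.1 hg
    exact ⟨a, Multiset.mem_toFinset.1 ha⟩
  let g : U → MvPolynomial (Fin r) (MvPolynomial (Fin n) K) := fun j => ren s (j : MvPolynomial _ K)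
  let e : Fin r → U → ℕ := fun a j => (S a).count (j : MvPolynomial _ K)
  have hprod : ∀ a, ∏ j, g j ^ e a j = ren s (S a).prod := fun a =>
    prod_countG (ren s : MvPolynomial (Fin n) K →ₐ[K] _).toRingHom.toMonoidHom U (S a) (hU a)
  have hg : ∀ j, g j ≠ 0 := by
    intro j h0
    obtain ⟨a, ha⟩ := hUmem j j.2
    refine hg0 a _ ha (ren_injective s hs ?_)
    rw [map_zero]
    exact h0
  have hdet2 : (Matrix.of fun a b : Fin r => pderiv b (∏ j, g j ^ e a j)).det ≠ 0 := by
    have h1 : (Matrix.of fun a b : Fin r => pderiv b (∏ j, g j ^ e a j)) =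
        (ren s : MvPolynomial (Fin n) K →ₐ[K] _).toRingHom.mapMatrix
          (Matrix.of fun a b => pderiv (s b) (S a).prod) := by
      ext1 a b
      rw [Matrix.of_apply, RingHom.mapMatrix_apply, Matrix.map_apply, Matrix.of_apply, hprod,
        pderiv_ren s hs]
      rfl
    rw [h1, ← RingHom.map_det]
    intro h0
    apply hdet
    apply ren_injective s hs
    rw [map_zero]
    exact h0
  have hev : ∀ (J : Fin r → U) (j : U), ∀ x ∈ Algebra.adjoin K
      ({c | (∃ l m, c = (g (J l)).coeff m) ∨ ∃ m, c = (g j).coeff m} :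
        Set (MvPolynomial (Fin n) K)), evG K β p x = 0 → x = 0 := by
    intro J j x hx h0
    -- the `r + 1` families of simple polynomials
    let jj : Fin (r + 1) → U := Fin.cons j J
    have hcls : ∀ i, ((jj i : U) : MvPolynomial (Fin n) K) ∈ S₁ := by
      intro i
      obtain ⟨a, ha⟩ := hUmem _ (jj i).2
      exact hS a _ ha
    choose F hF hcoefF using fun i => hcoef r hr s hs _ (hcls i)
    let F1 : Fin ((r + 1) * c) → MvPolynomial (Fin n) K :=
      fun i => F (finProdFinEquiv.symm i).1 (finProdFinEquiv.symm i).2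
    have hle : (r + 1) * c ≤ p :=
      le_trans (Nat.mul_le_mul_right _ (by omega)) hp
    obtain ⟨F2, hF2, hF12⟩ := adjoin_padG hle Sc h0S F1 (fun i => hF _ _)
    refine evG_inj (p := p) (T := p) Sc β hjac F2 hF2 le_rfl ?_ h0
    apply hF12
    have hsub : ∀ i, Algebra.adjoin K (Set.range (F i)) ≤ Algebra.adjoin K (Set.range F1) := by
      intro i
      refine Algebra.adjoin_mono ?_
      rintro _ ⟨l, rfl⟩
      refine ⟨finProdFinEquiv (i, l), ?_⟩
      simp only [F1, Equiv.symm_apply_apply]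
    refine Algebra.adjoin_le ?_ hx
    rintro c (⟨l, m, rfl⟩ | ⟨m, rfl⟩)
    · exact hsub l.succ (hcoefF l.succ m)
    · exact hsub 0 (hcoefF 0 m)
  have hspec := specialize (evG K β p) g hg e hdet2 hev
  obtain ⟨φ, hφ⟩ := exists_specG2 (K := K) (T' := p) (T := T) (r := r) (by omega) s hs β
  refine AlgebraicIndependent.of_comp φ ?_
  have hinj : Function.Injective (aeval (R := MvPolynomial (Fin p ⊕ Fin p) B₀)
      (fun b : Fin r => (C (genG β p (s b)) + X b :
        MvPolynomial (Fin r) (MvPolynomial (Fin p ⊕ Fin p) B₀)))) := shift_injective _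
  have h3 := hspec.map' (f := (aeval (R := MvPolynomial (Fin p ⊕ Fin p) B₀)
      (fun b : Fin r => (C (genG β p (s b)) + X b :
        MvPolynomial (Fin r) (MvPolynomial (Fin p ⊕ Fin p) B₀)))).restrictScalars K) hinj
  convert h3 using 1
  funext a
  rw [Function.comp_apply, Function.comp_apply, hφ, hprod]
  rfl

/-- the hitting theorem for two classes -/
theorem evG_ne_zero2 [IsDomain B₀] {k c p T : ℕ} (S₁ Sc : Set (MvPolynomial (Fin n) K))
    (h0S : (0 : MvPolynomial (Fin n) K) ∈ Sc) (β : Fin n → B₀)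
    (hcoef : ∀ r ≤ k, ∀ s : Fin r → Fin n, Function.Injective s → ∀ σ ∈ S₁,
      ∃ F : Fin c → MvPolynomial (Fin n) K, (∀ i, F i ∈ Sc) ∧
      ∀ m, (ren s σ).coeff m ∈ Algebra.adjoin K (Set.range F))
    (hjac : ∀ q ≤ p, ∀ s : Fin q → Fin n, Function.Injective s →
      ∀ F : Fin q → MvPolynomial (Fin n) K, (∀ a, F a ∈ Sc) →
      (Matrix.of fun a b => pderiv (s b) (F a)).det ≠ 0 →
      affG K s β (Matrix.of fun a b => pderiv (s b) (F a)).det ≠ 0)
    (hp : (k + 1) * c ≤ p) (hT : k + p ≤ T) {f : MvPolynomial (Fin n) K}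
    (hf : BddTrG (fun g => g ∈ S₁) k f) (h0 : f ≠ 0) : evG K β T f ≠ 0 := by
  obtain ⟨N, Sm, hS, hk, hmem⟩ := hf
  intro hz
  apply h0
  refine H531R2.D4.faithfulK (k := k) (fun i => (Sm i).prod) (evG K β T) hk ?_ hmem hz
  intro r hr u hu
  exact evG_independent2 S₁ Sc h0S β hcoef hjac hp hT hr (fun a => Sm (u a))
    (fun a => hS (u a)) hu

omit [CharZero K] in
theorem evT_eq_evG (T : ℕ) : evT K n T = evG K (fun _ : Fin n => (0 : K)) T := by
  unfold evT evG
  congr 1
  funext m
  unfold gen genG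
  rw [C_0, zero_add]

omit [CharZero K] in
theorem gen_eq_genG (T : ℕ) : gen K n T = genG (fun _ : Fin n => (0 : K)) T := by
  funext m
  unfold gen genG
  rw [C_0, zero_add]

/-- The hitting theorem for polynomials with few coefficients over a class `T` whose Jacobian
determinants are hit by the Shpilka-Volkovich family. -/
theorem fin_hit {k C m : ℕ} (T : Set (MvPolynomial (Fin n) K))
    (h0 : (0 : MvPolynomial (Fin n) K) ∈ T)
    (hjac : ∀ q ≤ (k + 1) * C, ∀ s : Fin q → Fin n, Function.Injective s →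
      ∀ F : Fin q → MvPolynomial (Fin n) K, (∀ a, F a ∈ T) →
      (Matrix.of fun a b => pderiv (s b) (F a)).det ≠ 0 →
      evT K n m (Matrix.of fun a b => pderiv (s b) (F a)).det ≠ 0)
    {f : MvPolynomial (Fin n) K} (hf : BddTrG (fun g => FinCoef k C T g) k f) (hf0 : f ≠ 0) :
    evT K n (m + (k + (k + 1) * C)) f ≠ 0 := by
  have key : evG K (gen K n m) (k + (k + 1) * C) f ≠ 0 := by
    refine evG_ne_zero2 (c := C) (p := (k + 1) * C) {g | FinCoef k C T g} T h0 (gen K n m) ?_ ?_
      le_rfl le_rfl hf hf0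
    · intro r hr s hs σ hσ
      exact FinCoef.ren hσ hr s hs
    · intro q hq s hs F hF hdet
      apply affG_ne_zero
      exact hjac q hq s hs F hF hdet
  obtain ⟨φ, hφ⟩ := exists_flat (K := K) (n := n) (B₀ := K) (T₁ := m) (T₂ := k + (k + 1) * C)
    (T := m + (k + (k + 1) * C)) le_rfl (fun _ : Fin n => (0 : K))
  intro hz
  apply key
  have h1 := hφ f
  rw [← evT_eq_evG, hz, map_zero, ← gen_eq_genG] at h1
  exact h1.symm

end gfinal2

end Pool.Agent.H626R2.Loc
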