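import Pool.Agent.H626R2.Loc.EMain
import Pool.Agent.H473R2.LocE1
import Pool.Agent.H201R2.LocE2
import Pool.Agent.H602R2.LocS8

/-!
# The hitting set theorem for sums of products over sparse leaves
-/

set_option autoImplicit false

namespace Pool.Agent.H626R2.Loc

open MvPolynomial

section pts

/-- the point with seeds `u`, `y`, `z` -/
noncomputable def pointE (n T N u : ℕ) (y z : Fin T → ℕ) : Fin n → ℤ := fun m =>
  (psiN N (Nat.nth Nat.Prime m) u : ℤ) +
    ∑ l : Fin T, (y l : ℤ) * ∏ j ∈ Finset.univ.erase m, ((z l : ℤ) - ((j : ℕ) : ℤ))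

/-- the explicit set of points -/
noncomputable def pointsE (n T N D : ℕ) : Finset (Fin n → ℤ) :=
  ((Finset.range (N * D + 1)) ×ˢ ((Fintype.piFinset fun _ : Fin T => Finset.range (D + 1)) ×ˢ
    (Fintype.piFinset fun _ : Fin T => Finset.range (n * D + 1)))).image
    fun uyz => pointE n T N uyz.1 uyz.2.1 uyz.2.2

theorem pointsE_card (n T N D : ℕ) :
    (pointsE n T N D).card ≤ (N * D + 1) * ((D + 1) * (n * D + 1)) ^ T := by
  unfold pointsE
  refine Finset.card_image_le.trans ?_
  rw [Finset.card_product, Finset.card_product, Fintype.card_piFinset, Fintype.card_piFinset,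
    Finset.card_range]
  simp only [Finset.card_range, Finset.prod_const, Finset.card_univ, Fintype.card_fin]
  rw [mul_pow]

theorem nth_prime_le (m : ℕ) : Nat.nth Nat.Prime m ≤ 2 ^ (m + 1) := by
  induction m with
  | zero => rw [Nat.nth_prime_zero_eq_two]; norm_num
  | succ m ih =>
    have hne : Nat.nth Nat.Prime m ≠ 0 := (Nat.prime_nth_prime m).ne_zero
    obtain ⟨q, hq, h1, h2⟩ := Nat.exists_prime_lt_and_le_two_mul _ hne
    have h3 : Nat.nth Nat.Prime (m + 1) ≤ q := by
      by_contra hlt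
      push Not at hlt
      have := Nat.le_nth_of_lt_nth_succ hlt hq
      omega
    refine h3.trans (h2.trans ?_)
    rw [pow_succ]
    omega

theorem psiN_le {N v u : ℕ} (hv : 1 ≤ v) : psiN N v u ≤ v ^ u := by
  by_cases h : u ≤ N
  · rw [psiN_eq hv h]
  · push Not at h
    rw [← psiN_eq (N := u) hv le_rfl]
    unfold psiN
    refine Finset.sum_le_sum_of_subset ?_
    intro i hi
    rw [Finset.mem_range] at hi ⊢
    omega

theorem pointsE_bound (n T N D : ℕ) (p : Fin n → ℤ) (hp : p ∈ pointsE n T N D) (i : Fin n) :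
    |p i| ≤ ((2 ^ (n * N * D) + T * D * (n * D + n) ^ (n - 1) : ℕ) : ℤ) := by
  unfold pointsE at hp
  rw [Finset.mem_image] at hp
  obtain ⟨⟨u, y, z⟩, huyz, rfl⟩ := hp
  rw [Finset.mem_product, Finset.mem_product] at huyz
  obtain ⟨hu, hy, hz⟩ := huyz
  simp only [Finset.mem_range, Fintype.mem_piFinset] at hu hy hz
  unfold pointE
  refine (abs_add_le _ _).trans ?_
  rw [Nat.cast_add]
  refine add_le_add ?_ ?_
  · rw [Nat.abs_cast, Nat.cast_le]
    refine (psiN_le (Nat.prime_nth_prime _).one_le).trans ?_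
    refine (Nat.pow_le_pow_left (nth_prime_le i) u).trans ?_
    rw [← pow_mul]
    refine Nat.pow_le_pow_right (by norm_num) ?_
    rw [mul_assoc]
    exact Nat.mul_le_mul (by omega) (by omega)
  · refine (Finset.abs_sum_le_sum_abs _ _).trans ?_
    have h1 : ∀ l ∈ (Finset.univ : Finset (Fin T)),
        |(y l : ℤ) * ∏ j ∈ Finset.univ.erase i, ((z l : ℤ) - ((j : ℕ) : ℤ))| ≤
          (D : ℤ) * ((n * D + n : ℕ) : ℤ) ^ (n - 1) := by
      intro l _
      rw [abs_mul, Finset.abs_prod, Nat.abs_cast]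
      have hyl : (y l : ℤ) ≤ D := by
        have := hy l
        omega
      refine mul_le_mul hyl ?_ (Finset.prod_nonneg fun j _ => abs_nonneg _) (by positivity)
      have h2 : ∏ j ∈ Finset.univ.erase i, |(z l : ℤ) - ((j : ℕ) : ℤ)| ≤
          ∏ _j ∈ Finset.univ.erase i, ((n * D + n : ℕ) : ℤ) := by
        refine Finset.prod_le_prod (fun j _ => abs_nonneg _) fun j _ => ?_
        have hzl := hz l
        have hj := j.isLt
        rw [abs_le]
        constructor <;> push_cast <;> nlinarith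
      refine h2.trans ?_
      rw [Finset.prod_const, Finset.card_erase_of_mem (Finset.mem_univ _), Finset.card_univ,
        Fintype.card_fin]
    refine (Finset.sum_le_sum h1).trans ?_
    rw [Finset.sum_const, Finset.card_univ, Fintype.card_fin, nsmul_eq_mul]
    push_cast
    rw [mul_assoc]

end pts

section hit

variable {K : Type} [Field K] [CharZero K] {n : ℕ}

/-- number of seed pairs for the levels over simple polynomials -/
def TE (d c j k ρ : ℕ) : ℕ := TtG (fun k => d ^ k) 2 c j k ρ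

/-- number of simple polynomials in the Jacobian determinants -/
def PE (d c j k ρ : ℕ) : ℕ := PtG (fun k => d ^ k) 2 c j k ρ

/-- number of interpolated powers -/
def NE (L s d c j k ρ : ℕ) : ℕ := (PE d c j k ρ).factorial * rowS (PE d c j k ρ) L s ^ PE d c j k ρ

omit [CharZero K] in
theorem zero_mem_simpleE {L s d : ℕ} (hd : 1 ≤ d) :
    (0 : MvPolynomial (Fin n) K) ∈ SimpleE n K L s d := by
  left
  refine ⟨fun _ => 0, 0, by simp, by simp, fun m => by simpa using hd, by simp⟩

/-- The generator hits all levels over simple polynomials. -/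
theorem levE_hit {L s d c j k ρ T N : ℕ} (hL : 1 ≤ L) (hd : 1 ≤ d) (hc : 1 ≤ c)
    (hT : TE d c j k ρ ≤ T) (hN : NE L s d c j k ρ ≤ N) {f : MvPolynomial (Fin n) K}
    (hf : BddTrG (ClsG (LevG (SimpleE n K L s d) c j) ρ) k f) (h0 : f ≠ 0) :
    evG K (base K n N) T f ≠ 0 := by
  refine levG_hit (a := 2) (c := c) (f := fun k => d ^ k) (by norm_num) hc (zero_mem_simpleE hd)
    (fun k => coefFin_simpleE hL hd) (fun σ hσ m => pderiv_simpleE hσ m) (base K n N) j k ρ T hT ?_
    f hf h0
  intro q hq sb hsb F hF hdet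
  exact jac_hitE hL hN hq sb hsb F hF hdet

/-- The hitting set theorem. -/
theorem hitE {L s d c j k ρ T N D : ℕ} (hL : 1 ≤ L) (hd : 1 ≤ d) (hc : 1 ≤ c)
    (hT : TE d c j k ρ ≤ T) (hN : NE L s d c j k ρ ≤ N) (f : MvPolynomial (Fin n) K) (M : ℕ)
    (F : Fin M → MvPolynomial (Fin n) K)
    (hF : ∀ i, BddTrG (ClsG (LevG (SimpleE n K L s d) c j) ρ) k (F i)) (hF0 : ∀ i, F i ≠ 0)
    (hdvd : f ∣ ∏ i, F i) (hD : f.totalDegree ≤ D) :
    ∃ p ∈ pointsE n T N D, eval (fun i => ((p i : ℤ) : K)) f ≠ 0 := by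
  have h1 : evG K (base K n N) T f ≠ 0 := by
    intro hz
    obtain ⟨g, hg⟩ := hdvd
    have h2 : evG K (base K n N) T (∏ i, F i) = 0 := by
      rw [hg, map_mul, hz, zero_mul]
    rw [map_prod] at h2
    obtain ⟨i, _, hi⟩ := Finset.prod_eq_zero_iff.1 h2
    exact levE_hit hL hd hc hT hN (hF i) (hF0 i) hi
  obtain ⟨u, y, z, hu, hy, hz, hne⟩ := exists_gridG h1 hD
  refine ⟨pointE n T N u y z, ?_, ?_⟩
  · unfold pointsE
    rw [Finset.mem_image]
    refine ⟨(u, y, z), ?_, rfl⟩
    rw [Finset.mem_product, Finset.mem_product]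
    exact ⟨Finset.mem_range.2 (Nat.lt_succ_of_le hu),
      Fintype.mem_piFinset.2 fun l => Finset.mem_range.2 (Nat.lt_succ_of_le (hy l)),
      Fintype.mem_piFinset.2 fun l => Finset.mem_range.2 (Nat.lt_succ_of_le (hz l))⟩
  · have h3 : (fun i => ((pointE n T N u y z i : ℤ) : K)) = (fun m : Fin n =>
        ((psiN N (Nat.nth Nat.Prime m) u : ℕ) : K) +
        ∑ l, (y l : K) * ∏ j ∈ Finset.univ.erase m, ((z l : K) - ((j : ℕ) : K))) := by
      funext m
      unfold pointE
      push_cast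
      rfl
    rw [h3]
    exact hne

end hit

end Pool.Agent.H626R2.Loc
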