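import Pool.Agent.H626R2.Loc.C2c
import Pool.Agent.H227R2.LocC1ab
import Pool.Agent.H992R2.LocC2de
import Pool.Agent.H531R2.D4.TH

/-! Formalised by helper708. -/

/-! Formalised by helper708. -/

set_option autoImplicit false

namespace Pool.Agent.H626R2.Loc

open MvPolynomial

section poly

variable {K : Type} [Field K] {n : ℕ}

theorem H708_eval_aff {q : ℕ} (s : Fin q → Fin n) (base : Fin n → K)
    (f : MvPolynomial (Fin n) K) : eval (fun _ => (0 : K)) (aff s base f) = eval base f := by
  have h : (eval (fun _ => (0 : K))).comp (aff s base).toRingHom = eval base := by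
    apply MvPolynomial.ringHom_ext
    · intro r
      simp [aff]
    · intro i
      have h2 : (aff s base).toRingHom (X i) =
          C (base i) + ∑ b, if s b = i then X b else 0 := MvPolynomial.aeval_X _ i
      rw [RingHom.comp_apply, h2, eval_X, map_add, eval_C, map_sum]
      have h3 : ∀ b : Fin q, eval (fun _ => (0 : K))
          (if s b = i then (X b : MvPolynomial (Fin q) K) else 0) = 0 := by
        intro b
        split_ifs
        · rw [eval_X]
        · rw [map_zero]
      rw [Finset.sum_congr rfl fun b _ => h3 b]
      simp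
  have := congrArg (fun g => g f) h
  exact this

theorem H708_eval_univ (base : Fin n → K) (m : Fin n) (u : Polynomial K) :
    eval base (Polynomial.aeval (X m : MvPolynomial (Fin n) K) u) = Polynomial.eval (base m) u := by
  rw [Polynomial.aeval_def, Polynomial.hom_eval₂]
  rw [eval_X]
  have : (eval base).comp (algebraMap K (MvPolynomial (Fin n) K)) = RingHom.id K := by
    ext x
    simp
  rw [this, Polynomial.eval₂_id]

variable [CharZero K]

/-- C2b (uses C2a3, C2c, C2d, C2e, exists_sv). -/
theorem exists_base {q δ D' : ℕ} (hD : 1 ≤ D') (hD' : q * δ ≤ D') (s : Fin q → Fin n)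
    (hs : Function.Injective s) (F : Fin q → MvPolynomial (Fin n) K) (hF : ∀ a, Simple δ (F a))
    (hdet : (Matrix.of fun a b => pderiv (s b) (F a)).det ≠ 0) :
    ∃ u w : Fin D' → K,
      aff s (H531R2.D4.sv u w) (Matrix.of fun a b => pderiv (s b) (F a)).det ≠ 0 := by
  classical
  have hF0 : ∀ a, F a ≠ 0 := by
    intro a h0
    apply hdet
    refine Matrix.det_eq_zero_of_row_eq_zero a fun b => ?_
    rw [Matrix.of_apply, h0, map_zero]
  choose w R hw hR hCD using fun a => row_decomp s hs (hF a) (hF0 a)
  have hfac : (Matrix.of fun a b => pderiv (s b) (F a)).det =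
      (∏ a, ∏ m, Polynomial.aeval (X m : MvPolynomial (Fin n) K) (w a m)) *
        (Matrix.of fun a b => R a b).det := by
    rw [← Matrix.det_mul_column]
    congr 1
    ext1 a b
    rw [Matrix.of_apply, Matrix.of_apply, Matrix.of_apply, hR]
  have hRdet : (Matrix.of fun a b => R a b).det ≠ 0 := by
    intro h0
    apply hdet
    rw [hfac, h0, mul_zero]
  set G := ren s (Matrix.of fun a b => R a b).det with hG
  have hG0 : G ≠ 0 := by
    intro h0
    apply hRdet
    apply ren_injective s hs
    rw [map_zero]
    exact h0
  have hGCD : CD (q * δ) G := by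
    rw [hG, AlgHom.map_det]
    exact CD.det _ fun a b => hCD a b
  obtain ⟨m0, hm0⟩ := MvPolynomial.ne_zero_iff.mp hG0
  set S : Finset (MvPolynomial (Fin n) K) := insert (coeff m0 G)
    (Finset.univ.biUnion fun a : Fin q => Finset.univ.biUnion fun m : Fin n =>
      (w a m).roots.toFinset.image fun ρ => X m - C ρ) with hS
  have hXC : ∀ (m : Fin n) (ρ : K), (X m - C ρ : MvPolynomial (Fin n) K) ≠ 0 := by
    intro m ρ h0
    have h1 := congrArg (eval (fun _ => ρ + 1)) h0
    rw [map_sub, eval_X, eval_C, map_zero] at h1
    simp at h1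
  obtain ⟨u, v, huv⟩ := H531R2.D4.exists_sv (K := K) (L := K) (D := D') S
    (fun g : MvPolynomial (Fin n) K => g) (by
      intro g hg
      rw [hS, Finset.mem_insert] at hg
      rcases hg with rfl | hg
      · exact hm0
      · simp only [Finset.mem_biUnion, Finset.mem_univ, true_and, Finset.mem_image] at hg
        obtain ⟨a, m, ρ, _, rfl⟩ := hg
        exact hXC m ρ) (by
      intro g hg
      rw [hS, Finset.mem_insert] at hg
      rcases hg with rfl | hg
      · exact (hGCD m0).trans hD'
      · simp only [Finset.mem_biUnion, Finset.mem_univ, true_and, Finset.mem_image] at hg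
        obtain ⟨a, m, ρ, _, rfl⟩ := hg
        refine (MvPolynomial.totalDegree_sub _ _).trans ?_
        rw [totalDegree_C, totalDegree_X]
        simpa using hD)
  refine ⟨u, v, ?_⟩
  set base : Fin n → K := H531R2.D4.sv u v with hbase
  have hev : ∀ g ∈ S, eval base g ≠ 0 := by
    intro g hg
    exact huv g hg
  rw [hfac, map_mul, map_prod]
  refine mul_ne_zero (Finset.prod_ne_zero_iff.mpr fun a _ => ?_) ?_
  · rw [map_prod]
    refine Finset.prod_ne_zero_iff.mpr fun m _ h0 => ?_
    have h1 := congrArg (eval (fun _ => (0 : K))) h0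
    rw [H708_eval_aff, H708_eval_univ, map_zero] at h1
    have h2 := hev (X m - C (base m)) (by
      rw [hS, Finset.mem_insert]
      right
      simp only [Finset.mem_biUnion, Finset.mem_univ, true_and, Finset.mem_image]
      exact ⟨a, m, base m, by
        rw [Multiset.mem_toFinset, Polynomial.mem_roots (hw a m)]
        exact h1, rfl⟩)
    rw [map_sub, eval_X, eval_C, sub_self] at h2
    exact h2 rfl
  · rw [aff_eq s hs]
    intro h0
    have h1 := shift_injective (fun b => base (s b)) (h0.trans (map_zero _).symm)
    have h2 := congrArg (coeff m0) h1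
    rw [coeff_map, coeff_zero] at h2
    exact hev (coeff m0 G) (Finset.mem_insert_self _ _) h2

end poly

end Pool.Agent.H626R2.Loc
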