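import Pool.Agent.H626R2.Loc.ODefs

/-!
# Simple polynomials with few exponents per variable; levels over an arbitrary base class
-/

set_option autoImplicit false

namespace Pool.Agent.H626R2.Loc

open MvPolynomial

section e

variable {K : Type} [Field K] {n : ℕ}

/-- every variable occurs in `q` with at most `d` different exponents (`0` included) -/
def FewExp (d : ℕ) (q : MvPolynomial (Fin n) K) : Prop :=
  ∀ m : Fin n, (insert 0 (q.support.image fun e => e m)).card ≤ d

/-- a sum of univariate polynomials with at most `L` terms each, plus a polynomial with at most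
`s` terms and at most `d` exponents per variable -/
def SumE (L s d : ℕ) (σ : MvPolynomial (Fin n) K) : Prop :=
  ∃ (u : Fin n → Polynomial K) (q : MvPolynomial (Fin n) K), (∀ m, (u m).support.card ≤ L) ∧
    q.support.card ≤ s ∧ FewExp d q ∧ σ = ∑ m, Polynomial.aeval (X m) (u m) + q

/-- a product of univariate polynomials with at most `L` terms each, times a polynomial with at
most `s` terms and at most `d` exponents per variable -/
def ProdE (L s d : ℕ) (σ : MvPolynomial (Fin n) K) : Prop :=
  ∃ (u : Fin n → Polynomial K) (q : MvPolynomial (Fin n) K), (∀ m, (u m).support.card ≤ L) ∧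
    q.support.card ≤ s ∧ FewExp d q ∧ σ = (∏ m, Polynomial.aeval (X m) (u m)) * q

/-- the simple polynomials -/
def SimpleE (n : ℕ) (K : Type) [Field K] (L s d : ℕ) : Set (MvPolynomial (Fin n) K) :=
  {σ | SumE L s d σ ∨ ProdE L s d σ}

/-- the levels over a base class -/
def LevG (S₀ : Set (MvPolynomial (Fin n) K)) (c : ℕ) : ℕ → Set (MvPolynomial (Fin n) K)
  | 0 => S₀
  | j + 1 => Occ c (LevG S₀ c j)

end e

/-- number of coefficients at level `j`, `f k` of them at level `0` -/
def cfG (f : ℕ → ℕ) (c k : ℕ) : ℕ → ℕ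
  | 0 => f k
  | j + 1 => 1 + k * c + k * c * cfG f c k j

/-- number of products in a derivative at level `j`, `a` at level `0` -/
def cdG (a c : ℕ) : ℕ → ℕ
  | 0 => a
  | j + 1 => c * cdG a c j

/-- number of polynomials whose algebraic independence is used -/
def ptG (f : ℕ → ℕ) (c j k ρ : ℕ) : ℕ := (k + 1) * (ρ * cfG f c k j)

/-- number of pairs of seeds at level `j` added to the base point -/
def TtG (f : ℕ → ℕ) (a c : ℕ) : ℕ → ℕ → ℕ → ℕ
  | 0, k, ρ => k + ptG f c 0 k ρ
  | j + 1, k, ρ => k + ptG f c (j + 1) k ρ +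
      TtG f a c j ((ptG f c (j + 1) k ρ).factorial * cdG a c (j + 1) ^ ptG f c (j + 1) k ρ) 1

/-- number of polynomials of the base class in the Jacobian determinants to be hit by the base
point -/
def PtG (f : ℕ → ℕ) (a c : ℕ) : ℕ → ℕ → ℕ → ℕ
  | 0, k, ρ => ptG f c 0 k ρ
  | j + 1, k, ρ =>
      PtG f a c j ((ptG f c (j + 1) k ρ).factorial * cdG a c (j + 1) ^ ptG f c (j + 1) k ρ) 1

end Pool.Agent.H626R2.Loc
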