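import Pool.Agent.H879R2.LocG3

set_option autoImplicit false

namespace Pool.Agent.H626R2.Loc

open MvPolynomial

variable {K : Type} [Field K] {n : ℕ} {B₀ : Type} [CommRing B₀] [Algebra K B₀]

/-- G2. -/
theorem exists_specG [CharZero K] {q T : ℕ} (hT : q ≤ T) (s : Fin q → Fin n) (β : Fin n → B₀) :
    ∃ φ : MvPolynomial (Fin T ⊕ Fin T) B₀ →ₐ[K] MvPolynomial (Fin q) B₀,
      ∀ f : MvPolynomial (Fin n) K, φ (evG K β T f) = affG K s β f := by
  classical
  obtain ⟨e, rfl⟩ : ∃ e, T = 0 + q + e := ⟨T - q, by omega⟩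
  obtain ⟨φ, hφ⟩ := G3.gen_spec_aux (K := K) (n := n) (B₀ := B₀) (B := MvPolynomial (Fin q) B₀)
    (D' := 0) (e := e) s β Fin.elim0 Fin.elim0 (fun b => X b)
  refine ⟨φ, fun f => ?_⟩
  have h : φ.comp (evG K β (0 + q + e)) = affG K s β := by
    apply MvPolynomial.algHom_ext
    intro m
    rw [AlgHom.comp_apply]
    unfold evG affG
    rw [aeval_X, aeval_X, hφ m]
    simp [MvPolynomial.algebraMap_eq]
  exact DFunLike.congr_fun h f

end Pool.Agent.H626R2.Loc
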