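import Pool.Agent.H626R2.Loc.Defs

/-!
# General form: an arbitrary base point in place of part of the seeds; sparse polynomials of bounded
individual degree
-/

set_option autoImplicit false

namespace Pool.Agent.H626R2.Loc

open MvPolynomial

section gen

variable {K : Type} [Field K] {n : ℕ} {B₀ : Type} [CommRing B₀] [Algebra K B₀]

/-- base point plus the generic point of the Shpilka-Volkovich family -/
noncomputable def genG (β : Fin n → B₀) (T : ℕ) (m : Fin n) : MvPolynomial (Fin T ⊕ Fin T) B₀ :=
  C (β m) + ∑ l, X (Sum.inl l) * ∏ j ∈ Finset.univ.erase m, (X (Sum.inr l) - C ((j : ℕ) : B₀))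

/-- substitution of the generic point -/
noncomputable def evG (K : Type) [Field K] [Algebra K B₀] (β : Fin n → B₀) (T : ℕ) :
    MvPolynomial (Fin n) K →ₐ[K] MvPolynomial (Fin T ⊕ Fin T) B₀ :=
  aeval (genG β T)

/-- the affine space through the base point in the directions `e_{s b}` -/
noncomputable def affG (K : Type) [Field K] [Algebra K B₀] {q : ℕ} (s : Fin q → Fin n)
    (β : Fin n → B₀) : MvPolynomial (Fin n) K →ₐ[K] MvPolynomial (Fin q) B₀ :=
  aeval (fun m => C (β m) + ∑ b, if s b = m then X b else 0)

/-- arbitrary polynomials in `ρ` members of `S` -/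
def ClsG (S : Set (MvPolynomial (Fin n) K)) (ρ : ℕ) (g : MvPolynomial (Fin n) K) : Prop :=
  ∃ (σ : Fin ρ → MvPolynomial (Fin n) K) (P : MvPolynomial (Fin ρ) K),
    (∀ i, σ i ∈ S) ∧ g = aeval σ P

/-- `f` is a polynomial in finitely many products of members of `Cc`, no `k + 1` of which are
algebraically independent -/
def BddTrG (Cc : MvPolynomial (Fin n) K → Prop) (k : ℕ) (f : MvPolynomial (Fin n) K) : Prop :=
  ∃ (N : ℕ) (S : Fin N → Multiset (MvPolynomial (Fin n) K)),
    (∀ i, ∀ g ∈ S i, Cc g) ∧
    (∀ u : Fin (k + 1) → Fin N, ¬ AlgebraicIndependent K (fun a => (S (u a)).prod)) ∧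
    f ∈ Algebra.adjoin K (Set.range fun i => (S i).prod)

/-! ### sparse polynomials of bounded individual degree -/

/-- a sum of univariate polynomials with at most `L` terms each, plus a polynomial with at most
`s` terms and degree at most `d` in each variable -/
def SumS (L s d : ℕ) (σ : MvPolynomial (Fin n) K) : Prop :=
  ∃ (u : Fin n → Polynomial K) (q : MvPolynomial (Fin n) K), (∀ m, (u m).support.card ≤ L) ∧
    q.support.card ≤ s ∧ (∀ m, q.degreeOf m ≤ d) ∧ σ = ∑ m, Polynomial.aeval (X m) (u m) + q

/-- a product of univariate polynomials with at most `L` terms each, times a polynomial with at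
most `s` terms and degree at most `d` in each variable -/
def ProdS (L s d : ℕ) (σ : MvPolynomial (Fin n) K) : Prop :=
  ∃ (u : Fin n → Polynomial K) (q : MvPolynomial (Fin n) K), (∀ m, (u m).support.card ≤ L) ∧
    q.support.card ≤ s ∧ (∀ m, q.degreeOf m ≤ d) ∧ σ = (∏ m, Polynomial.aeval (X m) (u m)) * q

/-- the simple polynomials -/
def SimpleS (n : ℕ) (K : Type) [Field K] (L s d : ℕ) : Set (MvPolynomial (Fin n) K) :=
  {σ | SumS L s d σ ∨ ProdS L s d σ}

/-- bound for the sparsity of a row of the Jacobian -/
def rowS (p L s : ℕ) : ℕ := L ^ p * s + L + s + 1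

/-- `∑ i ≤ N, (v - 1) ^ i * (u choose i)`, equal to `v ^ u` for `u ≤ N` -/
def psiN (N v u : ℕ) : ℕ := ∑ i ∈ Finset.range (N + 1), (v - 1) ^ i * u.choose i

/-- the polynomial in `u` with values `psiN N v u` -/
noncomputable def psi (K : Type) [Field K] (N v : ℕ) : Polynomial K :=
  ∑ i ∈ Finset.range (N + 1), Polynomial.C (((v - 1 : ℕ) : K) ^ i / (i.factorial : K)) *
    descPochhammer K i

/-- the base point: powers of the primes, interpolated -/
noncomputable def base (K : Type) [Field K] (n N : ℕ) (m : Fin n) : Polynomial K :=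
  psi K N (Nat.nth Nat.Prime m)

end gen

end Pool.Agent.H626R2.Loc
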