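import Pool.Agent.H626R2.Loc.GDefs

/-!
# Bounded occurrence formulas of constant depth with simple leaves
-/

set_option autoImplicit false

namespace Pool.Agent.H626R2.Loc

open MvPolynomial

section occ

variable {K : Type} [Field K] {n : ℕ}

/-- sums of constant multiples of products of powers of members of `S`, such that every variable
occurs in at most `c` of the bases -/
def Occ (c : ℕ) (S : Set (MvPolynomial (Fin n) K)) : Set (MvPolynomial (Fin n) K) :=
  {σ | ∃ (N I : ℕ) (a : Fin N → K) (g : Fin N → Fin I → MvPolynomial (Fin n) K)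
    (e : Fin N → Fin I → ℕ), (∀ l i, g l i ∈ S) ∧
    (∀ m : Fin n, {li : Fin N × Fin I | m ∈ (g li.1 li.2).vars}.ncard ≤ c) ∧
    σ = ∑ l, C (a l) * ∏ i, g l i ^ e l i}

/-- the levels: simple polynomials, then bounded occurrence sums of power products -/
def Lev (n : ℕ) (K : Type) [Field K] (L s d c : ℕ) : ℕ → Set (MvPolynomial (Fin n) K)
  | 0 => SimpleS n K L s d
  | j + 1 => Occ c (Lev n K L s d c j)

/-- sums of constant multiples of `k` products of members of `S` -/
def SumProd (k : ℕ) (S : Set (MvPolynomial (Fin n) K)) (f : MvPolynomial (Fin n) K) : Prop :=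
  ∃ (a : Fin k → K) (M : Fin k → Multiset (MvPolynomial (Fin n) K)),
    (∀ i, ∀ g ∈ M i, g ∈ S) ∧ f = ∑ i, C (a i) * (M i).prod

/-- the coefficients with respect to at most `k` variables are polynomials in `c` members -/
def CoefFin (S : Set (MvPolynomial (Fin n) K)) (k c : ℕ) : Prop :=
  ∀ r ≤ k, ∀ s : Fin r → Fin n, Function.Injective s → ∀ σ ∈ S,
    ∃ U : Finset (MvPolynomial (Fin n) K), U.card ≤ c ∧ (∀ g ∈ U, g ∈ S) ∧
      ∀ m, (ren s σ).coeff m ∈ Algebra.adjoin K (U : Set (MvPolynomial (Fin n) K))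

/-- number of coefficients at level `j` -/
def cf (d c k : ℕ) : ℕ → ℕ
  | 0 => (d + 1) ^ k
  | j + 1 => 1 + k * c + k * c * cf d c k j

/-- number of products in a derivative at level `j` -/
def cd (c : ℕ) : ℕ → ℕ
  | 0 => 2
  | j + 1 => c * cd c j

end occ

/-- number of polynomials whose algebraic independence is used -/
def pt (d c j k ρ : ℕ) : ℕ := (k + 1) * (ρ * cf d c k j)

/-- number of pairs of seeds at level `j` -/
def Tt (d c : ℕ) : ℕ → ℕ → ℕ → ℕ
  | 0, k, ρ => k + pt d c 0 k ρ
  | j + 1, k, ρ => k + pt d c (j + 1) k ρ +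
      Tt d c j ((pt d c (j + 1) k ρ).factorial * cd c (j + 1) ^ pt d c (j + 1) k ρ) 1

/-- number of interpolated powers of primes at level `j` -/
def Nt (L s d c : ℕ) : ℕ → ℕ → ℕ → ℕ
  | 0, k, ρ => (pt d c 0 k ρ).factorial * rowS (pt d c 0 k ρ) L s ^ pt d c 0 k ρ
  | j + 1, k, ρ =>
      Nt L s d c j ((pt d c (j + 1) k ρ).factorial * cd c (j + 1) ^ pt d c (j + 1) k ρ) 1

end Pool.Agent.H626R2.Loc
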