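import Pool.Agent.H509R2.LocV2
import Pool.Agent.H114R2.LocV4
import Pool.Agent.H114R2.LocV5
import Pool.Agent.H114R2.LocV6
import Pool.Agent.H114R2.LocV8a

/-! Formalised by helper339. -/

set_option autoImplicit false

namespace Pool.Agent.H626R2.Loc

open MvPolynomial

section V8aux

variable {K L : Type} [Field K] [Field L] (f : K →+* L) (A : ValuationSubring K)
  (B : ValuationSubring L)

theorem V8_le_iff (h : ∀ y, y ∈ A ↔ f y ∈ B) (x y : K) :
    A.valuation x ≤ A.valuation y ↔ B.valuation (f x) ≤ B.valuation (f y) := by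
  by_cases hy : y = 0
  · subst hy
    simp only [map_zero, le_zero_iff, map_eq_zero]
  · have hfy : f y ≠ 0 := by simpa using hy
    have h1 : A.valuation x ≤ A.valuation y ↔ A.valuation (x / y) ≤ 1 := by
      rw [map_div₀, div_le_one₀ (zero_lt_iff.mpr ((Valuation.ne_zero_iff _).mpr hy))]
    have h2 : B.valuation (f x) ≤ B.valuation (f y) ↔ B.valuation (f (x / y)) ≤ 1 := by
      rw [map_div₀, map_div₀, div_le_one₀ (zero_lt_iff.mpr ((Valuation.ne_zero_iff _).mpr hfy))]
    rw [h1, h2, ValuationSubring.valuation_le_one_iff, ValuationSubring.valuation_le_one_iff, h]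

theorem V8_lt_iff (h : ∀ y, y ∈ A ↔ f y ∈ B) (x y : K) :
    A.valuation x < A.valuation y ↔ B.valuation (f x) < B.valuation (f y) := by
  rw [← not_le, ← not_le, V8_le_iff f A B h]

theorem V8_lt_one_iff (h : ∀ y, y ∈ A ↔ f y ∈ B) (x : K) :
    A.valuation x < 1 ↔ B.valuation (f x) < 1 := by
  have := V8_lt_iff f A B h x 1
  simpa only [map_one] using this

theorem V8_eq_one_iff (h : ∀ y, y ∈ A ↔ f y ∈ B) (x : K) :
    A.valuation x = 1 ↔ B.valuation (f x) = 1 := by
  have h1 := V8_le_iff f A B h x 1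
  have h2 := V8_le_iff f A B h 1 x
  simp only [map_one] at h1 h2
  rw [le_antisymm_iff, le_antisymm_iff, h1, h2]

end V8aux

theorem V8_algMap {r : ℕ} {F : Type} [Field F] (c : F) :
    algebraMap F (Fr r F) c = toFr (C c) := by
  rw [IsScalarTower.algebraMap_apply F (MvPolynomial (Fin r) F) (Fr r F)]
  rfl

theorem V8_frMap_C {r : ℕ} (M k : Type) [Field M] [Field k] [Algebra M k] (c : M) :
    frMap M k (toFr (C c) : Fr r M) = toFr (C (algebraMap M k c)) := by
  rw [frMap_toFr, map_C]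

/-- the values of parallel polynomials -/
theorem V8_val {r : ℕ} {M Λ : Type} [Field M] [Field Λ] [Algebra M Λ]
    (VM : ValuationSubring (Fr r M)) (V : ValuationSubring (Fr r Λ))
    (hV : ∀ y, y ∈ VM ↔ frMap M Λ y ∈ V) (hΛ : ∀ c : Λ, toFr (C c) ∈ V)
    (hres : ∀ y ∈ VM, ∃ c : M, VM.valuation (y - toFr (C c)) < 1)
    {s : ℕ} (e : Fin s → Λ) (he : LinearIndependent M e)
    (y : Fin s → MvPolynomial (Fin r) M) (i₀ : Fin s)
    (hmax : ∀ i, VM.valuation (toFr (y i)) ≤ VM.valuation (toFr (y i₀))) :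
    V.valuation (toFr (∑ i, C (e i) * MvPolynomial.map (algebraMap M Λ) (y i))) =
      V.valuation (frMap M Λ (toFr (y i₀))) := by
  have h := val_sum V (fun c => by rw [V8_algMap]; exact hΛ c) (frMap M Λ).fieldRange
    (by
      rintro _ ⟨x, rfl⟩ hx
      have hx' : x ∈ VM := (hV x).mpr hx
      obtain ⟨c, hc⟩ := hres x hx'
      refine ⟨c, ?_⟩
      rw [V8_lt_one_iff (frMap M Λ) VM V hV, map_sub, V8_frMap_C] at hc
      rw [V8_algMap]
      exact hc)
    e he (fun i => frMap M Λ (toFr (y i))) (fun i => ⟨_, rfl⟩) i₀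
    (fun i => (V8_le_iff (frMap M Λ) VM V hV _ _).mp (hmax i))
  rw [← h]
  congr 1
  rw [map_sum]
  refine Finset.sum_congr rfl fun i _ => ?_
  rw [map_mul, V8_algMap, frMap_toFr]

/-- V8 (uses V2, V4, V5, V6, V8a). -/
theorem core {r : ℕ} {M Λ k : Type} [Field M] [IsAlgClosed M] [Field Λ] [Field k]
    [Algebra M Λ] [Algebra M k]
    (V : ValuationSubring (Fr r Λ)) (hΛ : ∀ c : Λ, toFr (C c) ∈ V)
    {ι : Type} [Fintype ι] (g : ι → MvPolynomial (Fin r) Λ) (g' : ι → MvPolynomial (Fin r) k)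
    (hpar : ∀ j, Parallel M (g j) (g' j))
    (J : Fin r → ι) (p : Fin r → MvPolynomial (Fin r) M)
    (hp : ∀ l, g (J l) = MvPolynomial.map (algebraMap M Λ) (p l))
    (hJ : IndepVal V (fun l => toFr (g (J l))))
    (e : Fin r → ι → ℕ) (hT : IndepVal V (fun a => ∏ j, toFr (g j) ^ e a j)) :
    AlgebraicIndependent k (fun a => ∏ j, g' j ^ e a j) := by
  classical
  -- the restriction of `V` to `M(t)`
  set VM : ValuationSubring (Fr r M) := V.comap (frMap M Λ) with hVM
  have hV : ∀ y, y ∈ VM ↔ frMap M Λ y ∈ V := fun y => ValuationSubring.mem_comap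
  have hM : ∀ c : M, (toFr (C c) : Fr r M) ∈ VM := by
    intro c
    rw [hV, V8_frMap_C]
    exact hΛ _
  -- the independent values over `M`
  have hfp : ∀ l, frMap M Λ (toFr (p l)) = toFr (g (J l)) := by
    intro l
    rw [frMap_toFr, hp l]
  have hpI : IndepVal VM (fun l => toFr (p l)) := by
    refine ⟨fun l h0 => ?_, fun n hn h1 => ?_⟩
    · have := hfp l
      simp only [] at h0
      rw [h0, map_zero] at this
      exact hJ.1 l this.symm
    · rw [V8_eq_one_iff (frMap M Λ) VM V hV, map_prod] at h1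
      refine hJ.2 n hn ?_
      rw [← h1]
      congr 1
      refine Finset.prod_congr rfl fun i _ => ?_
      rw [map_zpow₀, hfp]
  -- the residues
  have hres : ∀ y ∈ VM, ∃ c : M, VM.valuation (y - toFr (C c)) < 1 := by
    intro y hy
    obtain ⟨c, hc⟩ := residue_of_algDep VM (fun c => by rw [V8_algMap]; exact hM c)
      (fun l => toFr (p l)) hpI y hy (fr_algDep _)
    exact ⟨c, by rwa [V8_algMap] at hc⟩
  -- the extension to `k(t)`
  obtain ⟨V', hk, hV'⟩ := const_ext M k VM hM
  -- the values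
  have key : ∀ j, ∃ z : Fr r M, z ≠ 0 ∧ V.valuation (toFr (g j)) = V.valuation (frMap M Λ z) ∧
      V'.valuation (toFr (g' j)) = V'.valuation (frMap M k z) := by
    intro j
    obtain ⟨s, c, c', y, hc, hc', ⟨i₁, hi₁⟩, hg, hg'⟩ := hpar j
    have : Nonempty (Fin s) := ⟨i₁⟩
    obtain ⟨i₀, hi₀⟩ := Finite.exists_max (fun i => VM.valuation (toFr (y i)))
    refine ⟨toFr (y i₀), ?_, ?_, ?_⟩
    · intro h0
      have h2 := hi₀ i₁
      simp only [h0, map_zero, le_zero_iff, map_eq_zero] at h2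
      apply hi₁
      apply toFr_injective
      rw [h2, map_zero]
    · rw [hg]
      exact V8_val VM V hV hΛ hres c hc y i₀ hi₀
    · rw [hg']
      exact V8_val VM V' hV' hk hres c' hc' y i₀ hi₀
  choose z hz0 hzV hzV' using key
  -- independence of the values for `V'`
  have hI' : IndepVal V' (fun a => ∏ j, toFr (g' j) ^ e a j) := by
    refine ⟨fun a => ?_, fun n hn h1 => ?_⟩
    · refine Finset.prod_ne_zero_iff.mpr fun j _ => pow_ne_zero _ fun h0 => ?_
      have h2 := hzV' j
      rw [h0, map_zero] at h2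
      have h3 := (map_eq_zero _).mp h2.symm
      exact hz0 j ((map_eq_zero _).mp h3)
    · refine hT.2 n hn ?_
      have e1 : V'.valuation (∏ a, (∏ j, toFr (g' j) ^ e a j) ^ n a) =
          V'.valuation (frMap M k (∏ a, (∏ j, z j ^ e a j) ^ n a)) := by
        simp only [map_prod, map_zpow₀, map_pow, hzV']
      have e2 : V.valuation (∏ a, (∏ j, toFr (g j) ^ e a j) ^ n a) =
          V.valuation (frMap M Λ (∏ a, (∏ j, z j ^ e a j) ^ n a)) := by
        simp only [map_prod, map_zpow₀, map_pow, hzV]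
      rw [e1, ← V8_eq_one_iff (frMap M k) VM V' hV'] at h1
      rw [e2, ← V8_eq_one_iff (frMap M Λ) VM V hV]
      exact h1
  have hA := algInd_of_indepVal (F := k) (fun a => ∏ j, toFr (g' j) ^ e a j) V'
    (fun c => by rw [V8_algMap]; exact hk c) hI'
  have hcomp : (fun a => ∏ j, toFr (g' j) ^ e a j : Fin r → Fr r k) =
      (IsScalarTower.toAlgHom k (MvPolynomial (Fin r) k) (Fr r k)) ∘
        (fun a => ∏ j, g' j ^ e a j) := by
    funext a
    simp only [Function.comp_apply, map_prod, map_pow]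
    rfl
  rw [hcomp] at hA
  exact AlgebraicIndependent.of_comp _ hA

end Pool.Agent.H626R2.Loc
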