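import Pool.Agent.H204R2.LocV1
import Pool.Agent.H227R2.LocV3
import Pool.Agent.H626R2.Loc.V8
import Pool.Agent.H602R2.LocV9
import Pool.Agent.H227R2.LocV10
import Pool.Agent.H558R2.LocV11
import Pool.Agent.H177R2.LocV12a

set_option autoImplicit false

namespace Pool.Agent.H626R2.Loc

open MvPolynomial

/-- independence over the residue field gives independence over `K` for the reduction modulo the
kernel -/
theorem descend_quot {K A k : Type} [Field K] [CommRing A] [Algebra K A] [Field k] {r : ℕ}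
    (φ : A →+* k) (P : Ideal A) (hP : ∀ a, φ a = 0 ↔ a ∈ P) (T : Fin r → MvPolynomial (Fin r) A)
    (h : AlgebraicIndependent k (fun a => MvPolynomial.map φ (T a))) :
    AlgebraicIndependent K (fun a => MvPolynomial.map (Ideal.Quotient.mk P) (T a)) := by
  letI : Algebra K k := (φ.comp (algebraMap K A)).toAlgebra
  have hK : ∀ c : K, algebraMap K k c = φ (algebraMap K A c) := fun c => rfl
  have h1 : AlgebraicIndependent K (fun a => MvPolynomial.map φ (T a)) :=
    h.restrictScalars (algebraMap K k).injective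
  let ψ : (A ⧸ P) →+* k := Ideal.Quotient.lift P φ (fun a ha => (hP a).2 ha)
  have hψ : ∀ a, ψ (Ideal.Quotient.mk P a) = φ a := fun a => Ideal.Quotient.lift_mk P φ _
  let Ψ : (A ⧸ P) →ₐ[K] k := { ψ with
    commutes' := by
      intro c
      have : algebraMap K (A ⧸ P) c = Ideal.Quotient.mk P (algebraMap K A c) := rfl
      change ψ (algebraMap K (A ⧸ P) c) = _
      rw [this, hψ, hK] }
  let Φ : MvPolynomial (Fin r) (A ⧸ P) →ₐ[K] MvPolynomial (Fin r) k := MvPolynomial.mapAlgHom Ψ
  refine AlgebraicIndependent.of_comp Φ ?_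
  convert h1 using 1
  funext a
  change MvPolynomial.map (Ψ : (A ⧸ P) →+* k) (MvPolynomial.map (Ideal.Quotient.mk P) (T a)) = _
  rw [MvPolynomial.map_map]
  congr 1

theorem specialize_aux {K A Ω : Type} [Field K] [CharZero K] [CommRing A] [IsDomain A]
    [Algebra K A] [Field Ω] [IsAlgClosed Ω] [Algebra K Ω] [Algebra A Ω] [IsScalarTower K A Ω]
    (hinj : Function.Injective (algebraMap A Ω)) (P : Ideal A) [hP : P.IsPrime] {r : ℕ} {ι : Type}
    [Fintype ι]
    (g : ι → MvPolynomial (Fin r) A) (hg : ∀ j, g j ≠ 0) (e : Fin r → ι → ℕ)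
    (hdet : (Matrix.of fun a b : Fin r => pderiv b (∏ j, g j ^ e a j)).det ≠ 0)
    (hev : ∀ (J : Fin r → ι) (j : ι), ∀ x ∈ Algebra.adjoin K
      ({c | (∃ l m, c = (g (J l)).coeff m) ∨ ∃ m, c = (g j).coeff m} : Set A), x ∈ P → x = 0) :
    AlgebraicIndependent K
      (fun a => MvPolynomial.map (Ideal.Quotient.mk P) (∏ j, g j ^ e a j)) := by
  classical
  haveI : CharZero Ω := charZero_of_injective_algebraMap (algebraMap K Ω).injective
  set ψ : A →+* Ω := algebraMap A Ω with hψ
  set gΩ : ι → MvPolynomial (Fin r) Ω := fun j => MvPolynomial.map ψ (g j) with hgΩ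
  have hgΩ0 : ∀ j, gΩ j ≠ 0 := fun j h => hg j (MvPolynomial.map_injective ψ hinj (by
    rw [map_zero]; exact h))
  -- independence over `Ω`
  have hdetΩ : (Matrix.of fun a b : Fin r => pderiv b (∏ j, gΩ j ^ e a j)).det ≠ 0 := by
    have h1 : (Matrix.of fun a b : Fin r => pderiv b (∏ j, gΩ j ^ e a j)) =
        (MvPolynomial.map ψ).mapMatrix
          (Matrix.of fun a b : Fin r => pderiv b (∏ j, g j ^ e a j)) := by
      ext1 a b
      have h2 : ∏ j, gΩ j ^ e a j = MvPolynomial.map ψ (∏ j, g j ^ e a j) := by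
        rw [map_prod]
        simp only [map_pow, hgΩ]
      rw [Matrix.of_apply, RingHom.mapMatrix_apply, Matrix.map_apply, Matrix.of_apply, h2,
        ← MvPolynomial.pderiv_map]
    rw [h1, ← RingHom.map_det]
    intro h0
    exact hdet (MvPolynomial.map_injective ψ hinj (by rw [map_zero]; exact h0))
  have hind := fr_algInd_of_det (fun a => ∏ j, gΩ j ^ e a j) hdetΩ
  obtain ⟨V, hVΩ, hV⟩ := exists_indepVal _ hind
  have hV' : IndepVal V (fun a => ∏ j, toFr (gΩ j) ^ e a j) := by
    convert hV using 2 with a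
    rw [map_prod]
    simp only [map_pow]
  obtain ⟨J, hJ⟩ := indepVal_select V (fun j => toFr (gΩ j)) (fun j h => hgΩ0 j
    (toFr_injective (by rw [map_zero]; exact h))) e hV'
  obtain ⟨O, hO, hOP⟩ := exists_place hinj P hP
  rcases isEmpty_or_nonempty ι with hι | ⟨⟨j₀⟩⟩
  · -- no factors at all
    have hr : r = 0 := by
      by_contra hr
      exact hι.elim (J ⟨0, Nat.pos_of_ne_zero hr⟩)
    subst hr
    rw [algebraicIndependent_empty_type_iff]
    haveI : Nontrivial (A ⧸ P) := Ideal.Quotient.nontrivial_iff.2 hP.ne_top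
    exact (algebraMap K _).injective
  -- the field `M`
  set S : Set Ω := {c | ∃ l m, c = ψ ((g (J l)).coeff m)} with hS
  set F0 : IntermediateField K Ω := IntermediateField.adjoin K S with hF0
  set M : IntermediateField F0 Ω := algebraicClosure F0 Ω with hMdef
  haveI : IsAlgClosed M := (algebraicClosure.isAlgClosure F0 Ω).isAlgClosed
  -- units
  have hunits : ∀ (j : ι) (x : Ω), x ≠ 0 →
      IsAlgebraic (IntermediateField.adjoin K (S ∪ {c | ∃ m, c = ψ ((g j).coeff m)})) x →
      O.valuation x = 1 := by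
    intro j x hx0 hx
    refine alg_units O _ ?_ x hx0 hx
    intro y hy hy0
    have h1 : S ∪ {c | ∃ m, c = ψ ((g j).coeff m)} = ψ ''
        {c | (∃ l m, c = (g (J l)).coeff m) ∨ ∃ m, c = (g j).coeff m} := by
      ext c
      constructor
      · rintro (⟨l, m, rfl⟩ | ⟨m, rfl⟩)
        · exact ⟨_, Or.inl ⟨l, m, rfl⟩, rfl⟩
        · exact ⟨_, Or.inr ⟨m, rfl⟩, rfl⟩
      · rintro ⟨c, ⟨l, m, rfl⟩ | ⟨m, rfl⟩, rfl⟩
        · exact Or.inl ⟨l, m, rfl⟩
        · exact Or.inr ⟨m, rfl⟩
    have h2 : y ∈ (Algebra.adjoin K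
        ({c | (∃ l m, c = (g (J l)).coeff m) ∨ ∃ m, c = (g j).coeff m} : Set A)).map
        (IsScalarTower.toAlgHom K A Ω) := by
      rw [AlgHom.map_adjoin]
      rw [h1] at hy
      exact hy
    obtain ⟨x', hx', rfl⟩ := h2
    have hx'0 : x' ∉ P := by
      intro hxP
      apply hy0
      rw [hev J j x' hx' hxP]
      exact map_zero _
    have h3 : O.valuation (ψ x') ≤ 1 := (O.valuation_le_one_iff _).2 (hO x')
    have h4 : ¬ O.valuation (ψ x') < 1 := fun h => hx'0 ((hOP x').1 h)
    exact le_antisymm h3 (not_lt.1 h4)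
  have hup : ∀ (j : ι) (x : Ω), IsAlgebraic F0 x →
      IsAlgebraic (IntermediateField.adjoin K (S ∪ {c | ∃ m, c = ψ ((g j).coeff m)})) x := by
    intro j x hx
    have hle : F0 ≤ IntermediateField.adjoin K (S ∪ {c | ∃ m, c = ψ ((g j).coeff m)}) :=
      IntermediateField.adjoin.mono K _ _ Set.subset_union_left
    letI : Algebra F0 (IntermediateField.adjoin K (S ∪ {c | ∃ m, c = ψ ((g j).coeff m)})) :=
      (IntermediateField.inclusion hle).toRingHom.toAlgebra
    haveI : IsScalarTower F0 (IntermediateField.adjoin K (S ∪ {c | ∃ m, c = ψ ((g j).coeff m)}))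
      Ω := IsScalarTower.of_algebraMap_eq (fun c => rfl)
    exact hx.tower_top _
  have hM : ∀ c : M, algebraMap M Ω c ∈ O := by
    intro c
    by_cases hc : algebraMap M Ω c = 0
    · rw [hc]; exact O.zero_mem
    · rw [← O.valuation_le_one_iff, hunits j₀ _ hc (hup j₀ _ (mem_algebraicClosure_iff.1 c.2))]
  -- the polynomials over `O`
  let ψO : A →+* O := (algebraMap A Ω).codRestrict O.toSubring hO
  have hψO : ∀ a, ((ψO a : O) : Ω) = ψ a := fun a => rfl
  letI : Algebra M (IsLocalRing.ResidueField O) := (resM O hM).toAlgebra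
  have hpar : ∀ j, Parallel M (gΩ j)
      (MvPolynomial.map (IsLocalRing.residue O) (MvPolynomial.map ψO (g j))) := by
    intro j
    have h1 : gΩ j = MvPolynomial.map O.subtype (MvPolynomial.map ψO (g j)) := by
      rw [MvPolynomial.map_map]
      rfl
    rw [h1]
    refine parallel_of_units O hM _ ?_ ?_
    · intro h0
      rw [h0, map_zero] at h1
      exact hgΩ0 j h1
    · intro s c hne
      refine hunits j _ hne ?_
      rw [← mem_algebraicClosure_iff]
      refine sum_mem fun m _ => mul_mem ?_ ?_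
      · exact mem_algebraicClosure_iff.2 (hup j _ (mem_algebraicClosure_iff.1 (c m).2))
      · rw [mem_algebraicClosure_iff]
        have h2 : (((coeff m (MvPolynomial.map ψO (g j)) : O)) : Ω) ∈
            IntermediateField.adjoin K (S ∪ {c | ∃ m, c = ψ ((g j).coeff m)}) := by
          apply IntermediateField.subset_adjoin
          right
          exact ⟨m, by rw [coeff_map, hψO]⟩
        exact isAlgebraic_algebraMap (⟨_, h2⟩ : IntermediateField.adjoin K
          (S ∪ {c | ∃ m, c = ψ ((g j).coeff m)}))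
  -- the selected factors have coefficients in `M`
  have hp : ∀ l, ∃ p : MvPolynomial (Fin r) M, gΩ (J l) = MvPolynomial.map (algebraMap M Ω) p := by
    intro l
    have h1 : gΩ (J l) ∈ Set.range (MvPolynomial.map (σ := Fin r) (algebraMap M Ω)) := by
      rw [MvPolynomial.mem_range_map_iff_coeffs_subset]
      intro c hc
      rw [Finset.mem_coe, MvPolynomial.mem_coeffs_iff] at hc
      obtain ⟨m, _, rfl⟩ := hc
      have h2 : coeff m (gΩ (J l)) ∈ F0 := by
        apply IntermediateField.subset_adjoin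
        exact ⟨l, m, by rw [hgΩ, coeff_map]⟩
      exact ⟨⟨_, mem_algebraicClosure_iff.2 (isAlgebraic_algebraMap (⟨_, h2⟩ : F0))⟩, rfl⟩
    obtain ⟨p, hp⟩ := h1
    exact ⟨p, hp.symm⟩
  choose p hp using hp
  have hcore := core V hVΩ gΩ
    (fun j => MvPolynomial.map (IsLocalRing.residue O) (MvPolynomial.map ψO (g j))) hpar J p hp hJ e
    hV'
  refine descend_quot (K := K) ((IsLocalRing.residue O).comp ψO) P ?_ _ ?_
  · intro a
    rw [RingHom.comp_apply, IsLocalRing.residue_eq_zero_iff, O.valuation_lt_one_iff, hψO]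
    exact hOP a
  · convert hcore using 2 with a
    rw [map_prod]
    refine Finset.prod_congr rfl fun j _ => ?_
    rw [map_pow, MvPolynomial.map_map]

/-- V12. The specialisation theorem. -/
theorem specialize {K A B : Type} [Field K] [CharZero K] [CommRing A] [IsDomain A] [Algebra K A]
    [CommRing B] [IsDomain B] [Algebra K B] (ev : A →ₐ[K] B) {r : ℕ} {ι : Type} [Fintype ι]
    (g : ι → MvPolynomial (Fin r) A) (hg : ∀ j, g j ≠ 0) (e : Fin r → ι → ℕ)
    (hdet : (Matrix.of fun a b : Fin r => pderiv b (∏ j, g j ^ e a j)).det ≠ 0)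
    (hev : ∀ (J : Fin r → ι) (j : ι), ∀ x ∈ Algebra.adjoin K
      ({c | (∃ l m, c = (g (J l)).coeff m) ∨ ∃ m, c = (g j).coeff m} : Set A), ev x = 0 → x = 0) :
    AlgebraicIndependent K (fun a => MvPolynomial.map (ev : A →+* B) (∏ j, g j ^ e a j)) := by
  haveI : (RingHom.ker ev).IsPrime := RingHom.ker_isPrime _
  have h := specialize_aux (K := K) (A := A) (Ω := AlgebraicClosure (FractionRing A)) (by
    rw [IsScalarTower.algebraMap_eq A (FractionRing A) (AlgebraicClosure (FractionRing A))]
    exact (algebraMap (FractionRing A) (AlgebraicClosure (FractionRing A))).injective.comp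
      (IsFractionRing.injective A (FractionRing A)))
    (RingHom.ker ev) g hg e hdet (fun J j x hx hx' => hev J j x hx hx')
  let Φ : MvPolynomial (Fin r) (A ⧸ RingHom.ker ev) →ₐ[K] MvPolynomial (Fin r) B :=
    MvPolynomial.mapAlgHom (Ideal.kerLiftAlg ev)
  have hΦ : Function.Injective Φ :=
    MvPolynomial.map_injective _ (Ideal.kerLiftAlg_injective ev)
  have h2 := h.map' hΦ
  convert h2 using 1
  funext a
  change _ = MvPolynomial.map (Ideal.kerLiftAlg ev : (A ⧸ RingHom.ker ev) →+* B)
    (MvPolynomial.map (Ideal.Quotient.mk (RingHom.ker ev)) (∏ j, g j ^ e a j))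
  rw [MvPolynomial.map_map]
  congr 1

end Pool.Agent.H626R2.Loc
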